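import Pool.Agent.Lib.P62a0c3.Gcd

/-!
# The counting argument
-/

namespace Pool.Agent.Lib.P62a0c3

open Polynomial Finset

/-- The numerical inequality at the end of the counting argument, over the reals. -/
theorem numeric_real {e N M T R S : ℝ} (q1 : 3 * T * M ≤ 14 * S)
    (q2 : S ^ 2 ≤ T * ((e + 4) * N * T + 2 * R * N ^ 2)) (q3 : e * R + 1 ≤ T)
    (q4 : 299 * N ≤ 300 * M) (q5 : 45 ≤ e) (q6 : 1000 * (e + 4) ≤ N) (qT : 0 < T)
    (qM : 0 ≤ M) : False := by
  have qN : 0 < N := by linarith
  have he0 : 0 ≤ e := by linarith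
  have r1 : 9 * T ^ 2 * M ^ 2 ≤ 196 * S ^ 2 := by
    have h0 : 0 ≤ 3 * T * M := by positivity
    calc 9 * T ^ 2 * M ^ 2 = (3 * T * M) ^ 2 := by ring
      _ ≤ (14 * S) ^ 2 := pow_le_pow_left₀ h0 q1 2
      _ = 196 * S ^ 2 := by ring
  have r3 : 9 * T * M ^ 2 ≤ 196 * ((e + 4) * N * T + 2 * R * N ^ 2) := by
    have : T * (9 * T * M ^ 2) ≤ T * (196 * ((e + 4) * N * T + 2 * R * N ^ 2)) := by
      calc T * (9 * T * M ^ 2) = 9 * T ^ 2 * M ^ 2 := by ring
        _ ≤ 196 * S ^ 2 := r1
        _ ≤ 196 * (T * ((e + 4) * N * T + 2 * R * N ^ 2)) :=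
            mul_le_mul_of_nonneg_left q2 (by norm_num)
        _ = T * (196 * ((e + 4) * N * T + 2 * R * N ^ 2)) := by ring
    exact le_of_mul_le_mul_left this qT
  have r5 : 9 * e * M ^ 2 ≤ 196 * e * (e + 4) * N + 392 * N ^ 2 := by
    have h1 : e * R ≤ T := by linarith
    have h3 : (e * R) * (392 * N ^ 2) ≤ T * (392 * N ^ 2) :=
      mul_le_mul_of_nonneg_right h1 (by positivity)
    have : T * (9 * e * M ^ 2) ≤ T * (196 * e * (e + 4) * N + 392 * N ^ 2) := by
      calc T * (9 * e * M ^ 2) = e * (9 * T * M ^ 2) := by ring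
        _ ≤ e * (196 * ((e + 4) * N * T + 2 * R * N ^ 2)) :=
            mul_le_mul_of_nonneg_left r3 he0
        _ = 196 * e * (e + 4) * N * T + (e * R) * (392 * N ^ 2) := by ring
        _ ≤ 196 * e * (e + 4) * N * T + T * (392 * N ^ 2) := by linarith
        _ = T * (196 * e * (e + 4) * N + 392 * N ^ 2) := by ring
    exact le_of_mul_le_mul_left this qT
  have r6 : 89401 * N ^ 2 ≤ 90000 * M ^ 2 := by
    calc 89401 * N ^ 2 = (299 * N) ^ 2 := by ring
      _ ≤ (300 * M) ^ 2 := pow_le_pow_left₀ (by positivity) q4 2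
      _ = 90000 * M ^ 2 := by ring
  have r7 : 8.94 * e * N ^ 2 ≤ 9 * e * M ^ 2 := by
    have hNN : 0 ≤ N ^ 2 := by positivity
    have h1 : 8.94 * N ^ 2 ≤ 9 * M ^ 2 := by linarith
    calc 8.94 * e * N ^ 2 = e * (8.94 * N ^ 2) := by ring
      _ ≤ e * (9 * M ^ 2) := mul_le_mul_of_nonneg_left h1 he0
      _ = 9 * e * M ^ 2 := by ring
  have r8 : 8.94 * e * N ^ 2 ≤ 196 * e * (e + 4) * N + 392 * N ^ 2 := r7.trans r5
  have r9 : 8.94 * e * N ≤ 196 * e * (e + 4) + 392 * N := by
    have : N * (8.94 * e * N) ≤ N * (196 * e * (e + 4) + 392 * N) := by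
      calc N * (8.94 * e * N) = 8.94 * e * N ^ 2 := by ring
        _ ≤ 196 * e * (e + 4) * N + 392 * N ^ 2 := r8
        _ = N * (196 * e * (e + 4) + 392 * N) := by ring
    exact le_of_mul_le_mul_left this qN
  have r10 : (8.94 * e - 392) * N ≤ 196 * e * (e + 4) := by linarith
  have r11 : 0 < 8.94 * e - 392 := by linarith
  have r12 : (8.94 * e - 392) * (1000 * (e + 4)) ≤ 196 * e * (e + 4) :=
    (mul_le_mul_of_nonneg_left q6 r11.le).trans r10
  have r13 : (8.94 * e - 392) * 1000 ≤ 196 * e := by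
    have h0 : 0 < e + 4 := by linarith
    have : (e + 4) * ((8.94 * e - 392) * 1000) ≤ (e + 4) * (196 * e) := by
      calc (e + 4) * ((8.94 * e - 392) * 1000)
          = (8.94 * e - 392) * (1000 * (e + 4)) := by ring
        _ ≤ 196 * e * (e + 4) := r12
        _ = (e + 4) * (196 * e) := by ring
    exact le_of_mul_le_mul_left this h0
  linarith

/-- The numerical inequality at the end of the counting argument. -/
theorem numeric {d N E T R S : ℕ} (hd : 49 ≤ d) (hN : 1000 * d ≤ N) (hE : E ≤ 3 * d + 2)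
    (hT : (d - 4) * R + 1 ≤ T)
    (hS1 : 3 * T * (N - E) ≤ 14 * S) (hS2 : S ^ 2 ≤ T * (d * N * T + 2 * R * N ^ 2)) : False := by
  obtain ⟨e, rfl⟩ : ∃ e, d = e + 4 := ⟨d - 4, by omega⟩
  have h44 : e + 4 - 4 = e := by omega
  rw [h44] at hT
  have hEN : E ≤ N := by omega
  obtain ⟨M, hM⟩ : ∃ M, N = M + E := ⟨N - E, by omega⟩
  have hM1 : 299 * N ≤ 300 * M := by omega
  have hNE : N - E = M := by omega
  rw [hNE] at hS1
  have hTpos : 0 < T := by omega
  refine numeric_real (e := e) (N := N) (M := M) (T := T) (R := R) (S := S) ?_ ?_ ?_ ?_ ?_ ?_ ?_ ?_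
  · exact_mod_cast hS1
  · exact_mod_cast hS2
  · exact_mod_cast hT
  · exact_mod_cast hM1
  · have : 45 ≤ e := by omega
    exact_mod_cast this
  · exact_mod_cast hN
  · exact_mod_cast hTpos
  · exact Nat.cast_nonneg _

variable {F : Type*} [Field F] [IsAlgClosed F] [CharZero F]

/-- Abstract form of the main argument: a finite `f`-invariant set of points of `ℙ¹(F(t))`,
given by coprime pairs of polynomials of degree at most `R`, on which `f` satisfies the
cross-ratio identity for `d`-th powers. -/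
theorem main_count {ι : Type*} [Fintype ι] (f : ι → ι) (a b : ι → F[X]) {d R : ℕ}
    (hd : 49 ≤ d) (hR1 : 1 ≤ R)
    (hcop : ∀ i, IsCoprime (a i) (b i))
    (ha : ∀ i, (a i).natDegree ≤ R) (hb : ∀ i, (b i).natDegree ≤ R)
    (hdist : ∀ i j, a i * b j - a j * b i = 0 → i = j)
    (hid : ∀ x y z w, (a (f x) * b (f y) - a (f y) * b (f x)) *
        (a (f z) * b (f w) - a (f w) * b (f z)) *
        (a x ^ d * b w ^ d - a w ^ d * b x ^ d) * (a z ^ d * b y ^ d - a y ^ d * b z ^ d) =
      (a (f x) * b (f w) - a (f w) * b (f x)) * (a (f z) * b (f y) - a (f y) * b (f z)) *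
        (a x ^ d * b y ^ d - a y ^ d * b x ^ d) * (a z ^ d * b w ^ d - a w ^ d * b z ^ d))
    (hfib : ∀ x y, f x = f y → a x ^ d * b y ^ d - a y ^ d * b x ^ d = 0)
    (hfcard : ∀ x, Nat.card {y // a x ^ d * b y ^ d - a y ^ d * b x ^ d = 0} ≤ d)
    (x0 y0 : ι) (hx0a : a x0 = 1) (hx0b : b x0 = 1)
    (hy0a : a y0 ≠ 0) (hy0b : b y0 ≠ 0) (hy0 : max (a y0).natDegree (b y0).natDegree = R)
    (hN : 1000 * d ≤ Fintype.card ι) : False := by
  classical
  set N := Fintype.card ι with hNdef
  have hd0 : d ≠ 0 := by omega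
  -- the zero set
  obtain ⟨hne, hmason⟩ := card_roots_pow_sub_pow hy0a hy0b (hcop y0) (show 1 ≤ d by omega)
    (by rw [hy0]; exact hR1)
  set Z := (a y0 ^ d - b y0 ^ d).roots.toFinset with hZ
  have hZcard : d * R + 1 ≤ 2 * R + Z.card := by
    have h1 := ha y0
    have h2 := hb y0
    rw [hy0] at hmason
    have h3 : (a y0 ^ d - b y0 ^ d).roots.toFinset.card = Z.card := by rw [hZ]
    omega
  have hfne : f x0 ≠ f y0 := by
    intro h
    have h1 := hfib x0 y0 h
    rw [hx0a, hx0b, one_pow, one_mul, mul_one] at h1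
    apply hne
    linear_combination -h1
  set δ0 := a (f x0) * b (f y0) - a (f y0) * b (f x0) with hδ0
  have hδ0ne : δ0 ≠ 0 := fun h => hfne (hdist _ _ h)
  have hdegδ : ∀ i j, (a i * b j - a j * b i).natDegree ≤ 2 * R := by
    intro i j
    refine (natDegree_sub_le _ _).trans (max_le ?_ ?_)
    · refine natDegree_mul_le.trans ?_
      have := ha i; have := hb j; omega
    · refine natDegree_mul_le.trans ?_
      have := ha j; have := hb i; omega
  set V := δ0.roots.toFinset with hV
  have hVcard : V.card ≤ 2 * R := by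
    calc V.card ≤ δ0.roots.card := Multiset.toFinset_card_le _
      _ ≤ δ0.natDegree := card_roots' _
      _ ≤ 2 * R := hdegδ _ _
  set T := Z \ V with hTdef
  have hTcard : d * R + 1 ≤ 4 * R + T.card := by
    have h1 : Z.card ≤ T.card + V.card := by
      rw [hTdef]
      exact Finset.card_le_card_sdiff_add_card
    omega
  have hTcard' : (d - 4) * R + 1 ≤ T.card := by
    obtain ⟨e, rfl⟩ : ∃ e, d = e + 4 := ⟨d - 4, by omega⟩
    have : (e + 4) * R = e * R + 4 * R := by ring
    rw [this] at hTcard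
    have : e + 4 - 4 = e := by omega
    rw [this]
    omega
  -- the sets `B t`
  set B : F → Finset ι := fun t => univ.filter fun z => eval t (a z ^ d - b z ^ d) ≠ 0 with hB
  have hZroot : ∀ t ∈ T, eval t (a y0) ^ d = eval t (b y0) ^ d := by
    intro t ht
    have h1 : t ∈ Z := (Finset.mem_sdiff.1 ht).1
    rw [hZ, Multiset.mem_toFinset, mem_roots hne] at h1
    have h2 : eval t (a y0 ^ d - b y0 ^ d) = 0 := h1
    rw [eval_sub, eval_pow, eval_pow] at h2
    exact sub_eq_zero.1 h2
  have hcopeval : ∀ (i : ι) (t : F), ¬ (eval t (a i) = 0 ∧ eval t (b i) = 0) := by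
    rintro i t ⟨h1, h2⟩
    obtain ⟨u, v, huv⟩ := hcop i
    have := congrArg (eval t) huv
    rw [eval_add, eval_mul, eval_mul, h1, h2, eval_one] at this
    simp at this
  have hcollapse : ∀ t ∈ T, ∀ z ∈ B t, ∀ w ∈ B t,
      eval t (a (f z) * b (f w) - a (f w) * b (f z)) = 0 := by
    intro t ht z hz w hw
    have hz' : eval t (a z ^ d - b z ^ d) ≠ 0 := (Finset.mem_filter.1 hz).2
    have hw' : eval t (a w ^ d - b w ^ d) ≠ 0 := (Finset.mem_filter.1 hw).2
    have hid' := congrArg (eval t) (hid x0 y0 z w)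
    rw [hx0a, hx0b, one_pow] at hid'
    have hVt : eval t δ0 ≠ 0 := by
      intro h
      apply (Finset.mem_sdiff.1 ht).2
      rw [hV, Multiset.mem_toFinset, mem_roots hδ0ne]
      exact h
    have hyr := hZroot t ht
    have hby : eval t (b y0) ≠ 0 := by
      intro h
      apply hcopeval y0 t
      refine ⟨?_, h⟩
      rw [h, zero_pow hd0] at hyr
      exact pow_eq_zero_iff hd0 |>.1 hyr
    simp only [eval_mul, eval_sub, eval_pow, one_mul, mul_one] at hid' hVt hz' hw' ⊢
    rw [hδ0] at hVt
    simp only [eval_mul, eval_sub] at hVt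
    rw [hyr] at hid'
    have e1 : eval t (b y0) ^ d ≠ 0 := pow_ne_zero d hby
    have e2 : (eval t (a (f x0)) * eval t (b (f y0)) - eval t (a (f y0)) * eval t (b (f x0))) *
        (eval t (a (f z)) * eval t (b (f w)) - eval t (a (f w)) * eval t (b (f z))) *
        (eval t (b w) ^ d - eval t (a w) ^ d) *
        ((eval t (a z) ^ d - eval t (b z) ^ d) * eval t (b y0) ^ d) = 0 := by
      linear_combination hid'
    rcases mul_eq_zero.1 e2 with h | h
    · rcases mul_eq_zero.1 h with h' | h'
      · rcases mul_eq_zero.1 h' with h'' | h''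
        · exact absurd h'' hVt
        · exact h''
      · exact absurd (by linear_combination -h') hw'
    · rcases mul_eq_zero.1 h with h' | h'
      · exact absurd h' hz'
      · exact absurd h' e1
  -- number of coincidences
  have hpair : ∀ z w, f z ≠ f w → (T.filter fun t => z ∈ B t ∧ w ∈ B t).card ≤ 2 * R := by
    intro z w hzw
    have hne' : a (f z) * b (f w) - a (f w) * b (f z) ≠ 0 := fun h => hzw (hdist _ _ h)
    calc (T.filter fun t => z ∈ B t ∧ w ∈ B t).card
        ≤ (a (f z) * b (f w) - a (f w) * b (f z)).roots.toFinset.card := by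
          apply Finset.card_le_card
          intro t ht
          rw [Finset.mem_filter] at ht
          rw [Multiset.mem_toFinset, mem_roots hne']
          exact hcollapse t ht.1 z ht.2.1 w ht.2.2
      _ ≤ (a (f z) * b (f w) - a (f w) * b (f z)).roots.card := Multiset.toFinset_card_le _
      _ ≤ (a (f z) * b (f w) - a (f w) * b (f z)).natDegree := card_roots' _
      _ ≤ 2 * R := hdegδ _ _
  set S := ∑ t ∈ T, (B t).card with hS
  have hS2 : S ^ 2 ≤ T.card * (d * N * T.card + 2 * R * N ^ 2) := by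
    have h1 : S ^ 2 ≤ T.card * ∑ t ∈ T, (B t).card ^ 2 := by
      rw [hS]
      exact sq_sum_le_card_mul_sum_sq
    have h2 : ∑ t ∈ T, (B t).card ^ 2 ≤ d * N * T.card + 2 * R * N ^ 2 := by
      have e1 : ∀ t ∈ T, (B t).card ^ 2 = ∑ z : ι, ∑ w : ι, if z ∈ B t ∧ w ∈ B t then 1 else 0 := by
        intro t _
        have : (B t).card = ∑ z : ι, if z ∈ B t then 1 else 0 := by
          rw [Finset.sum_ite_mem, Finset.univ_inter, Finset.sum_const, smul_eq_mul, mul_one]
        rw [sq, this, Finset.sum_mul_sum]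
        refine Finset.sum_congr rfl fun z _ => Finset.sum_congr rfl fun w _ => ?_
        by_cases hz : z ∈ B t <;> by_cases hw : w ∈ B t <;> simp [hz, hw]
      rw [Finset.sum_congr rfl e1, Finset.sum_comm]
      have e2 : ∀ z : ι, ∑ t ∈ T, ∑ w : ι, (if z ∈ B t ∧ w ∈ B t then 1 else 0) ≤
          d * T.card + 2 * R * N := by
        intro z
        rw [Finset.sum_comm]
        have e3 : ∀ w : ι, ∑ t ∈ T, (if z ∈ B t ∧ w ∈ B t then 1 else 0) ≤
            (if a z ^ d * b w ^ d - a w ^ d * b z ^ d = 0 then T.card else 0) + 2 * R := by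
          intro w
          rw [← Finset.card_filter]
          split_ifs with h
          · exact (Finset.card_filter_le _ _).trans (Nat.le_add_right _ _)
          · rw [zero_add]
            exact hpair z w fun h' => h (hfib z w h')
        refine (Finset.sum_le_sum fun w _ => e3 w).trans ?_
        rw [Finset.sum_add_distrib, ← Finset.sum_filter, Finset.sum_const, Finset.sum_const]
        have e4 : (univ.filter fun w => a z ^ d * b w ^ d - a w ^ d * b z ^ d = 0).card ≤ d := by
          have := hfcard z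
          rwa [Nat.card_eq_fintype_card, Fintype.card_subtype] at this
        rw [smul_eq_mul, smul_eq_mul, Finset.card_univ, ← hNdef]
        have e5 := Nat.mul_le_mul_right T.card e4
        have e6 : N * (2 * R) = 2 * R * N := by ring
        rw [e6]
        exact Nat.add_le_add_right e5 _
      refine (Finset.sum_le_sum fun z _ => e2 z).trans ?_
      rw [Finset.sum_const, smul_eq_mul, Finset.card_univ, ← hNdef]
      apply le_of_eq
      ring
    exact h1.trans (Nat.mul_le_mul_left _ h2)
  -- the exceptional set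
  set E0 : Finset ι := univ.filter fun z => a z = 0
  set E1 : Finset ι := univ.filter fun z => b z = 0
  set E2 : Finset ι := univ.filter fun z => a x0 ^ d * b z ^ d - a z ^ d * b x0 ^ d = 0
  set E3 : Finset ι := univ.filter fun z => a y0 ^ d * b z ^ d - a z ^ d * b y0 ^ d = 0
  set E4 : Finset ι := univ.filter fun z => a z ^ d * a y0 ^ d = b y0 ^ d * b z ^ d
  have hE0 : E0.card ≤ 1 := by
    rw [Finset.card_le_one]
    intro i hi j hj
    apply hdist
    rw [(Finset.mem_filter.1 hi).2, (Finset.mem_filter.1 hj).2]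
    ring
  have hE1 : E1.card ≤ 1 := by
    rw [Finset.card_le_one]
    intro i hi j hj
    apply hdist
    rw [(Finset.mem_filter.1 hi).2, (Finset.mem_filter.1 hj).2]
    ring
  have hfcard' : ∀ x, (univ.filter fun w => a x ^ d * b w ^ d - a w ^ d * b x ^ d = 0).card ≤ d := by
    intro x
    have := hfcard x
    rwa [Nat.card_eq_fintype_card, Fintype.card_subtype] at this
  have hE2 : E2.card ≤ d := hfcard' x0
  have hE3 : E3.card ≤ d := hfcard' y0
  have hE4 : E4.card ≤ d := by
    rcases E4.eq_empty_or_nonempty with h | ⟨z, hz⟩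
    · rw [h, Finset.card_empty]; omega
    · refine (Finset.card_le_card ?_).trans (hfcard' z)
      intro w hw
      rw [Finset.mem_filter]
      refine ⟨Finset.mem_univ _, ?_⟩
      have h1 := (Finset.mem_filter.1 hz).2
      have h2 := (Finset.mem_filter.1 hw).2
      apply mul_left_cancel₀ (pow_ne_zero d hy0a)
      rw [mul_zero]
      linear_combination b w ^ d * h1 - b z ^ d * h2
  set E := E0 ∪ E1 ∪ E2 ∪ E3 ∪ E4 with hEdef
  have hE : E.card ≤ 3 * d + 2 := by
    have h1 := Finset.card_union_le (E0 ∪ E1 ∪ E2 ∪ E3) E4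
    have h2 := Finset.card_union_le (E0 ∪ E1 ∪ E2) E3
    have h3 := Finset.card_union_le (E0 ∪ E1) E2
    have h4 := Finset.card_union_le E0 E1
    rw [hEdef]
    omega
  -- lower bound for points outside the exceptional set
  have hlow : ∀ z, z ∉ E → 3 * T.card < 14 * (T.filter fun t => z ∈ B t).card := by
    intro z hz
    by_contra hcon
    push Not at hcon
    have hz0 : a z ≠ 0 := by
      intro h; apply hz
      simp only [hEdef, Finset.mem_union]
      exact Or.inl (Or.inl (Or.inl (Or.inl (Finset.mem_filter.2 ⟨Finset.mem_univ _, h⟩))))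
    have hz1 : b z ≠ 0 := by
      intro h; apply hz
      simp only [hEdef, Finset.mem_union]
      exact Or.inl (Or.inl (Or.inl (Or.inr (Finset.mem_filter.2 ⟨Finset.mem_univ _, h⟩))))
    have hz2 : a z ^ d ≠ b z ^ d := by
      intro h; apply hz
      simp only [hEdef, Finset.mem_union]
      refine Or.inl (Or.inl (Or.inr (Finset.mem_filter.2 ⟨Finset.mem_univ _, ?_⟩)))
      rw [hx0a, hx0b, h]; ring
    set T' := T.filter fun t => ¬ (z ∈ B t) with hT'
    have hsplit : (T.filter fun t => z ∈ B t).card + T'.card = T.card :=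
      Finset.card_filter_add_card_filter_not _
    set G : F[X] := ∏ t ∈ T', (X - C t) with hG
    have hGdeg : G.natDegree = T'.card := by
      rw [hG]
      exact natDegree_finsetProd_X_sub_C_eq_card T' fun t => t
    have hGdvd : ∀ P : F[X], (∀ t ∈ T', eval t P = 0) → G ∣ P := by
      intro P hP
      rw [hG]
      refine Finset.prod_dvd_of_coprime ?_ ?_
      · intro s _ t _ hst
        exact (pairwise_coprime_X_sub_C (fun _ _ h => h) hst :)
      · intro t ht
        exact dvd_iff_isRoot.2 (hP t ht)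
    have hG1 : G ∣ a y0 ^ d - b y0 ^ d := by
      apply hGdvd
      intro t ht
      rw [eval_sub, eval_pow, eval_pow, hZroot t (Finset.mem_filter.1 ht).1, sub_self]
    have hG2 : G ∣ a z ^ d - b z ^ d := by
      apply hGdvd
      intro t ht
      by_contra h
      exact (Finset.mem_filter.1 ht).2 (Finset.mem_filter.2 ⟨Finset.mem_univ _, h⟩)
    have hGd : (2 * d + 8) * R < 3 * G.natDegree := by
      rw [hGdeg]
      obtain ⟨e, rfl⟩ : ∃ e, d = e + 49 := ⟨d - 49, by omega⟩
      have e1 : (e + 49 - 4) * R = e * R + 45 * R := by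
        have : e + 49 - 4 = e + 45 := by omega
        rw [this]; ring
      rw [e1] at hTcard'
      have e2 : (2 * (e + 49) + 8) * R = 2 * (e * R) + 106 * R := by ring
      rw [e2]
      omega
    have hres := large_gcd hy0a hy0b hz0 hz1 (hcop y0) (hcop z) (show 3 ≤ d by omega) hR1 hy0
      (ha z) (hb z) hG1 hG2 hz2 hGd
    rcases hres with h | h
    · apply hz
      simp only [hEdef, Finset.mem_union]
      refine Or.inl (Or.inr (Finset.mem_filter.2 ⟨Finset.mem_univ _, ?_⟩))
      linear_combination -h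
    · apply hz
      simp only [hEdef, Finset.mem_union]
      exact Or.inr (Finset.mem_filter.2 ⟨Finset.mem_univ _, h⟩)
  have hS1 : 3 * T.card * (N - E.card) ≤ 14 * S := by
    have e1 : S = ∑ z : ι, (T.filter fun t => z ∈ B t).card := by
      rw [hS]
      have : ∀ t ∈ T, (B t).card = ∑ z : ι, if z ∈ B t then 1 else 0 := by
        intro t _
        rw [Finset.sum_ite_mem, Finset.univ_inter, Finset.sum_const, smul_eq_mul, mul_one]
      rw [Finset.sum_congr rfl this, Finset.sum_comm]
      refine Finset.sum_congr rfl fun z _ => ?_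
      rw [Finset.card_filter]
    have e2 : ∑ z ∈ univ \ E, 3 * T.card ≤ ∑ z ∈ univ \ E, 14 * (T.filter fun t => z ∈ B t).card :=
      Finset.sum_le_sum fun z hz => (hlow z (Finset.mem_sdiff.1 hz).2).le
    rw [Finset.sum_const, smul_eq_mul, Finset.card_sdiff_of_subset (Finset.subset_univ E),
      Finset.card_univ, ← hNdef, ← Finset.mul_sum] at e2
    have e3 : ∑ z ∈ univ \ E, (T.filter fun t => z ∈ B t).card ≤ S := by
      rw [e1]
      exact Finset.sum_le_sum_of_subset (Finset.sdiff_subset)
    calc 3 * T.card * (N - E.card) = (N - E.card) * (3 * T.card) := by ring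
      _ ≤ 14 * ∑ z ∈ univ \ E, (T.filter fun t => z ∈ B t).card := e2
      _ ≤ 14 * S := Nat.mul_le_mul_left _ e3
  exact numeric hd hN hE hTcard' hS1 hS2

end Pool.Agent.Lib.P62a0c3
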