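import Mathlib

/-!
# The Wronskian of three polynomials
-/

namespace Pool.Agent.Lib.P62a0c3

open Polynomial

variable {F : Type*} [Field F]

/-- The Wronskian determinant of three polynomials. -/
noncomputable def W3 (p q r : F[X]) : F[X] :=
  p * (derivative q * derivative (derivative r) - derivative (derivative q) * derivative r)
  - q * (derivative p * derivative (derivative r) - derivative (derivative p) * derivative r)
  + r * (derivative p * derivative (derivative q) - derivative (derivative p) * derivative q)

theorem W3_swap12 (p q r : F[X]) : W3 q p r = - W3 p q r := by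
  unfold W3; ring

theorem W3_swap23 (p q r : F[X]) : W3 p r q = - W3 p q r := by
  unfold W3; ring

theorem W3_add_third (p q r s : F[X]) : W3 p q (r + s) = W3 p q r + W3 p q s := by
  unfold W3; simp only [derivative_add]; ring

theorem W3_neg_third (p q r : F[X]) : W3 p q (-r) = - W3 p q r := by
  unfold W3; simp only [derivative_neg]; ring

theorem W3_self13 (p q : F[X]) : W3 p q p = 0 := by
  unfold W3; ring

theorem W3_self23 (p q : F[X]) : W3 p q q = 0 := by
  unfold W3; ring

/-- If `p + q + r + s = 0`, the Wronskians of `p, q, r` and `p, q, s` agree up to sign. -/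
theorem W3_of_sum (p q r s : F[X]) (h : p + q + r + s = 0) : W3 p q s = - W3 p q r := by
  have hs : s = -(p + (q + r)) := by linear_combination h
  rw [hs, W3_neg_third, W3_add_third, W3_add_third, W3_self13, W3_self23]
  ring

theorem wronskian_wronskian (p q r : F[X]) :
    wronskian (wronskian p q) (wronskian p r) = p * W3 p q r := by
  unfold W3 wronskian
  simp only [derivative_sub, derivative_mul]
  ring

/-- `d`-th power type factors: `x ^ (d - 2)` divides the first column. -/
theorem pow_dvd_W3_first (x u q r : F[X]) {d : ℕ} (hd : 2 ≤ d) :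
    x ^ (d - 2) ∣ W3 (u * x ^ d) q r := by
  obtain ⟨e, rfl⟩ : ∃ e, d = e + 2 := ⟨d - 2, by omega⟩
  have h0 : x ^ e ∣ u * x ^ (e + 2) := ⟨u * x ^ 2, by ring⟩
  have h1 : x ^ (e + 1) ∣ derivative (u * x ^ (e + 2)) := by
    rw [derivative_mul, derivative_pow]
    refine dvd_add ⟨derivative u * x, by ring⟩ ?_
    refine ⟨u * (C ((e + 2 : ℕ) : F)) * derivative x, ?_⟩
    have : e + 2 - 1 = e + 1 := by omega
    rw [this]
    ring
  have h2 : x ^ e ∣ derivative (derivative (u * x ^ (e + 2))) := by
    obtain ⟨w, hw⟩ := h1
    rw [hw, derivative_mul, derivative_pow]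
    refine dvd_add ?_ ⟨x * derivative w, by ring⟩
    refine ⟨C ((e + 1 : ℕ) : F) * derivative x * w, ?_⟩
    have : e + 1 - 1 = e := by omega
    rw [this]
    ring
  have h1' : x ^ e ∣ derivative (u * x ^ (e + 2)) := (pow_dvd_pow x (Nat.le_succ e)).trans h1
  have : e + 2 - 2 = e := by omega
  rw [this]
  unfold W3
  refine dvd_add (dvd_sub (Dvd.dvd.mul_right h0 _) ?_) ?_
  · exact Dvd.dvd.mul_left (dvd_sub (Dvd.dvd.mul_right h1' _) (Dvd.dvd.mul_right h2 _)) _
  · exact Dvd.dvd.mul_left (dvd_sub (Dvd.dvd.mul_right h1' _) (Dvd.dvd.mul_right h2 _)) _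

theorem natDegree_W3_le (p q r : F[X]) :
    (W3 p q r).natDegree ≤ p.natDegree + q.natDegree + r.natDegree := by
  have key : ∀ f g h f' g' h' : F[X], f'.natDegree ≤ f.natDegree → g'.natDegree ≤ g.natDegree →
      h'.natDegree ≤ h.natDegree → (f' * g' * h').natDegree ≤
        f.natDegree + g.natDegree + h.natDegree := by
    intro f g h f' g' h' h1 h2 h3
    calc (f' * g' * h').natDegree ≤ (f' * g').natDegree + h'.natDegree := natDegree_mul_le
      _ ≤ f'.natDegree + g'.natDegree + h'.natDegree := by
          gcongr; exact natDegree_mul_le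
      _ ≤ _ := by gcongr
  have d1 : ∀ f : F[X], (derivative f).natDegree ≤ f.natDegree := fun f =>
    (natDegree_derivative_le f).trans (Nat.sub_le _ _)
  have d2 : ∀ f : F[X], (derivative (derivative f)).natDegree ≤ f.natDegree := fun f =>
    (d1 _).trans (d1 f)
  have e : W3 p q r = p * derivative q * derivative (derivative r)
      - p * derivative (derivative q) * derivative r
      - derivative p * q * derivative (derivative r)
      + derivative (derivative p) * q * derivative r
      + derivative p * derivative (derivative q) * r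
      - derivative (derivative p) * derivative q * r := by
    unfold W3; ring
  rw [e]
  have k1 := key p q r p (derivative q) (derivative (derivative r)) le_rfl (d1 q) (d2 r)
  have k2 := key p q r p (derivative (derivative q)) (derivative r) le_rfl (d2 q) (d1 r)
  have k3 := key p q r (derivative p) q (derivative (derivative r)) (d1 p) le_rfl (d2 r)
  have k4 := key p q r (derivative (derivative p)) q (derivative r) (d2 p) le_rfl (d1 r)
  have k5 := key p q r (derivative p) (derivative (derivative q)) r (d1 p) (d2 q) le_rfl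
  have k6 := key p q r (derivative (derivative p)) (derivative q) r (d2 p) (d1 q) le_rfl
  refine (natDegree_sub_le _ _).trans (max_le ?_ k6)
  refine (natDegree_add_le _ _).trans (max_le ?_ k5)
  refine (natDegree_add_le _ _).trans (max_le ?_ k4)
  refine (natDegree_sub_le _ _).trans (max_le ?_ k3)
  exact (natDegree_sub_le _ _).trans (max_le k1 k2)

/-- Vanishing Wronskian of two polynomials implies linear dependence (characteristic zero). -/
theorem exists_relation_of_wronskian_eq_zero [CharZero F] {u v : F[X]}
    (h : wronskian u v = 0) : ∃ a b : F, (a ≠ 0 ∨ b ≠ 0) ∧ C a * u + C b * v = 0 := by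
  classical
  rcases eq_or_ne u 0 with rfl | hu
  · exact ⟨1, 0, Or.inl one_ne_zero, by simp⟩
  set g := gcd u v with hg
  have hg0 : g ≠ 0 := by
    intro h0
    exact hu ((gcd_eq_zero_iff u v).1 h0).1
  obtain ⟨u1, hu1⟩ : g ∣ u := gcd_dvd_left u v
  obtain ⟨v1, hv1⟩ : g ∣ v := gcd_dvd_right u v
  have hcop : IsCoprime u1 v1 := by
    obtain ⟨x, y, hxy⟩ := exists_gcd_eq_mul_add_mul u v
    refine ⟨x, y, ?_⟩
    apply mul_left_cancel₀ hg0
    calc g * (x * u1 + y * v1) = (g * u1) * x + (g * v1) * y := by ring
      _ = u * x + v * y := by rw [← hu1, ← hv1]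
      _ = g * 1 := by rw [mul_one]; exact hxy.symm
  have hw : wronskian u v = g ^ 2 * wronskian u1 v1 := by
    rw [hu1, hv1]
    unfold wronskian
    simp only [derivative_mul]
    ring
  have hw1 : wronskian u1 v1 = 0 := by
    rw [hw] at h
    rcases mul_eq_zero.1 h with h' | h'
    · exact absurd (pow_eq_zero_iff two_ne_zero |>.1 h') hg0
    · exact h'
  obtain ⟨du, dv⟩ := hcop.wronskian_eq_zero_iff.1 hw1
  have hu1c := eq_C_of_derivative_eq_zero du
  have hv1c := eq_C_of_derivative_eq_zero dv
  by_cases hz : v1.coeff 0 = 0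
  · have : v = 0 := by
      rw [hv1, hv1c, hz]; simp
    exact ⟨0, 1, Or.inr one_ne_zero, by rw [this]; simp⟩
  · refine ⟨v1.coeff 0, -(u1.coeff 0), Or.inl hz, ?_⟩
    have e1 : C (v1.coeff 0) * u = C (v1.coeff 0) * (g * C (u1.coeff 0)) := by
      conv_lhs => rw [hu1, hu1c]
    have e2 : C (-(u1.coeff 0)) * v = C (-(u1.coeff 0)) * (g * C (v1.coeff 0)) := by
      conv_lhs => rw [hv1, hv1c]
    rw [e1, e2, C_neg]
    ring

/-- Vanishing Wronskian of three polynomials implies linear dependence. -/
theorem exists_relation_of_W3_eq_zero [CharZero F] {p q r : F[X]} (hp : p ≠ 0)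
    (h : W3 p q r = 0) :
    ∃ a b c : F, (b ≠ 0 ∨ c ≠ 0) ∧ C a * p + C b * q + C c * r = 0 := by
  have h1 : wronskian (wronskian p q) (wronskian p r) = 0 := by
    rw [wronskian_wronskian, h, mul_zero]
  obtain ⟨b, c, hbc, hrel⟩ := exists_relation_of_wronskian_eq_zero h1
  have h2 : wronskian p (C b * q + C c * r) = 0 := by
    rw [← hrel]
    unfold wronskian
    simp only [derivative_add, derivative_mul, derivative_C]
    ring
  obtain ⟨a, e, hae, hrel2⟩ := exists_relation_of_wronskian_eq_zero h2
  have he : e ≠ 0 := by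
    intro he
    rw [he] at hrel2
    have ha : a ≠ 0 := by
      rcases hae with h | h
      · exact h
      · exact absurd he h
    rw [C_0, zero_mul, add_zero] at hrel2
    rcases mul_eq_zero.1 hrel2 with h | h
    · exact ha (C_eq_zero.1 h)
    · exact hp h
  refine ⟨a, e * b, e * c, ?_, ?_⟩
  · rcases hbc with h | h
    · exact Or.inl (mul_ne_zero he h)
    · exact Or.inr (mul_ne_zero he h)
  · rw [C_mul, C_mul]
    linear_combination hrel2

end Pool.Agent.Lib.P62a0c3
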