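import Pool.Agent.Lib.P62a0c3.Mason
import Pool.Agent.Lib.P62a0c3.Wronski

/-!
# A large common divisor of `a₁ ^ d - b₁ ^ d` and `a₂ ^ d - b₂ ^ d`
-/

namespace Pool.Agent.Lib.P62a0c3

open Polynomial

section general

variable {F : Type*} [Field F]

theorem column (x u : F[X]) {d : ℕ} (hd : 2 ≤ d) :
    ∃ p0 p1 p2 : F[X], u * x ^ d = x ^ (d - 2) * p0 ∧ derivative (u * x ^ d) = x ^ (d - 2) * p1 ∧
      derivative (derivative (u * x ^ d)) = x ^ (d - 2) * p2 := by
  obtain ⟨e, rfl⟩ : ∃ e, d = e + 2 := ⟨d - 2, by omega⟩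
  have h1 : derivative (u * x ^ (e + 2)) =
      x ^ (e + 1) * (derivative u * x + u * C ((e + 2 : ℕ) : F) * derivative x) := by
    rw [derivative_mul, derivative_pow]
    have : e + 2 - 1 = e + 1 := by omega
    rw [this]
    ring
  refine ⟨u * x ^ 2, x * (derivative u * x + u * C ((e + 2 : ℕ) : F) * derivative x),
    C ((e + 1 : ℕ) : F) * derivative x *
      (derivative u * x + u * C ((e + 2 : ℕ) : F) * derivative x) +
      x * derivative (derivative u * x + u * C ((e + 2 : ℕ) : F) * derivative x), ?_, ?_, ?_⟩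
  · have : e + 2 - 2 = e := by omega
    rw [this]; ring
  · have : e + 2 - 2 = e := by omega
    rw [this, h1]; ring
  · rw [h1, derivative_mul, derivative_pow]
    have : e + 2 - 2 = e := by omega
    rw [this]
    have : e + 1 - 1 = e := by omega
    rw [this]
    ring

theorem dvd_W3 (x y z u v w : F[X]) {d : ℕ} (hd : 2 ≤ d) :
    x ^ (d - 2) * y ^ (d - 2) * z ^ (d - 2) ∣ W3 (u * x ^ d) (v * y ^ d) (w * z ^ d) := by
  obtain ⟨p0, p1, p2, hp0, hp1, hp2⟩ := column x u hd
  obtain ⟨q0, q1, q2, hq0, hq1, hq2⟩ := column y v hd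
  obtain ⟨r0, r1, r2, hr0, hr1, hr2⟩ := column z w hd
  refine ⟨p0 * (q1 * r2 - q2 * r1) - q0 * (p1 * r2 - p2 * r1) + r0 * (p1 * q2 - p2 * q1), ?_⟩
  unfold W3
  rw [hp2, hq2, hr2, hp1, hq1, hr1, hp0, hq0, hr0]
  ring

theorem no_const_rel {a b : F[X]} (ha : a ≠ 0) (hb : b ≠ 0) (hab : IsCoprime a b) {d : ℕ}
    (hd : 1 ≤ d) (hR : 1 ≤ max a.natDegree b.natDegree) {s t : F}
    (h : C s * a ^ d = C t * b ^ d) : s = 0 ∧ t = 0 := by
  have hd0 : d ≠ 0 := by omega
  have hcop : IsCoprime (a ^ d) (b ^ d) := hab.pow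
  by_cases hs : s = 0
  · refine ⟨hs, ?_⟩
    by_contra ht
    rw [hs, C_0, zero_mul] at h
    rcases mul_eq_zero.1 h.symm with h' | h'
    · exact ht (C_eq_zero.1 h')
    · exact hb (pow_eq_zero_iff hd0 |>.1 h')
  · exfalso
    have ht : t ≠ 0 := by
      intro ht
      rw [ht, C_0, zero_mul] at h
      rcases mul_eq_zero.1 h with h' | h'
      · exact hs (C_eq_zero.1 h')
      · exact ha (pow_eq_zero_iff hd0 |>.1 h')
    have h1 : a ^ d ∣ b ^ d := by
      refine ⟨C (t⁻¹ * s), ?_⟩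
      have : b ^ d = C t⁻¹ * (C t * b ^ d) := by
        rw [← mul_assoc, ← C_mul, inv_mul_cancel₀ ht, C_1, one_mul]
      rw [this, ← h, C_mul]
      ring
    have h2 : b ^ d ∣ a ^ d := by
      refine ⟨C (s⁻¹ * t), ?_⟩
      have : a ^ d = C s⁻¹ * (C s * a ^ d) := by
        rw [← mul_assoc, ← C_mul, inv_mul_cancel₀ hs, C_1, one_mul]
      rw [this, h, C_mul]
      ring
    have u1 : IsUnit (a ^ d) := hcop.isUnit_of_dvd' dvd_rfl h1
    have u2 : IsUnit (b ^ d) := hcop.isUnit_of_dvd' h2 dvd_rfl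
    have e1 := natDegree_eq_zero_of_isUnit ((isUnit_pow_iff hd0).1 u1)
    have e2 := natDegree_eq_zero_of_isUnit ((isUnit_pow_iff hd0).1 u2)
    rw [e1, e2] at hR
    simp at hR

end general

variable {F : Type*} [Field F] [IsAlgClosed F] [CharZero F]

/-- No nontrivial `s a ^ d + t b ^ d = c ^ d` for `3 ≤ d`. -/
theorem no_fermat {a b c : F[X]} (ha : a ≠ 0) (hb : b ≠ 0) (hab : IsCoprime a b)
    {d R : ℕ} (hd : 3 ≤ d) (hR1 : 1 ≤ R) (hR : max a.natDegree b.natDegree = R)
    (hc : c.natDegree ≤ R) {s t : F}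
    (h : c ^ d = C s * a ^ d + C t * b ^ d) : s = 0 ∨ t = 0 := by
  classical
  by_contra hcon
  push Not at hcon
  obtain ⟨hs, ht⟩ := hcon
  obtain ⟨s', hs'⟩ := IsAlgClosed.exists_pow_nat_eq s (show 0 < d by omega)
  obtain ⟨t', ht'⟩ := IsAlgClosed.exists_pow_nat_eq (-t) (show 0 < d by omega)
  have hs0 : s' ≠ 0 := by
    rintro rfl
    rw [zero_pow (by omega)] at hs'
    exact hs hs'.symm
  have ht0 : t' ≠ 0 := by
    rintro rfl
    rw [zero_pow (by omega)] at ht'
    exact ht (neg_eq_zero.1 ht'.symm)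
  have ha' : C s' * a ≠ 0 := mul_ne_zero (C_ne_zero.2 hs0) ha
  have hb' : C t' * b ≠ 0 := mul_ne_zero (C_ne_zero.2 ht0) hb
  have na : (C s' * a).natDegree = a.natDegree := natDegree_C_mul hs0
  have nb : (C t' * b).natDegree = b.natDegree := natDegree_C_mul ht0
  have us : IsUnit (C s' : F[X]) := isUnit_C.2 (IsUnit.mk0 _ hs0)
  have ut : IsUnit (C t' : F[X]) := isUnit_C.2 (IsUnit.mk0 _ ht0)
  have hcop : IsCoprime (C s' * a) (C t' * b) :=
    (isCoprime_mul_unit_left_left us _ _).2 ((isCoprime_mul_unit_left_right ut _ _).2 hab)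
  have hm := card_roots_pow_sub_pow ha' hb' hcop (show 1 ≤ d by omega)
    (by rw [na, nb, hR]; exact hR1)
  have e : (C s' * a) ^ d - (C t' * b) ^ d = c ^ d := by
    rw [mul_pow, mul_pow, ← C_pow, ← C_pow, hs', ht', h, C_neg]
    ring
  rw [e, na, nb, hR] at hm
  obtain ⟨hc0, hm⟩ := hm
  have hroots : (c ^ d).roots.toFinset.card ≤ R := by
    have h1 : (c ^ d).roots.toFinset ⊆ c.roots.toFinset := by
      intro x hx
      rw [Multiset.mem_toFinset, roots_pow, Multiset.mem_nsmul] at hx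
      rw [Multiset.mem_toFinset]
      exact hx.2
    calc (c ^ d).roots.toFinset.card ≤ c.roots.toFinset.card := Finset.card_le_card h1
      _ ≤ c.roots.card := Multiset.toFinset_card_le _
      _ ≤ c.natDegree := card_roots' _
      _ ≤ R := hc
  have h1 : a.natDegree ≤ R := hR ▸ le_max_left _ _
  have h2 : b.natDegree ≤ R := hR ▸ le_max_right _ _
  have h3 : 3 * R ≤ d * R := Nat.mul_le_mul_right R hd
  omega

/-- If `a₁ ^ d - b₁ ^ d` and `a₂ ^ d - b₂ ^ d` have a common divisor of large degree, then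
`(a₂ / b₂) ^ d` is `1`, `(a₁ / b₁) ^ d` or `(b₁ / a₁) ^ d`. -/
theorem large_gcd {a1 b1 a2 b2 G : F[X]} (ha1 : a1 ≠ 0) (hb1 : b1 ≠ 0) (ha2 : a2 ≠ 0)
    (hb2 : b2 ≠ 0) (hc1 : IsCoprime a1 b1) (hc2 : IsCoprime a2 b2) {d R : ℕ} (hd : 3 ≤ d)
    (hR1 : 1 ≤ R) (hR : max a1.natDegree b1.natDegree = R)
    (hA2 : a2.natDegree ≤ R) (hB2 : b2.natDegree ≤ R)
    (hG1 : G ∣ a1 ^ d - b1 ^ d) (hG2 : G ∣ a2 ^ d - b2 ^ d)
    (hne : a2 ^ d ≠ b2 ^ d) (hdeg : (2 * d + 8) * R < 3 * G.natDegree) :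
    a2 ^ d * b1 ^ d = a1 ^ d * b2 ^ d ∨ a2 ^ d * a1 ^ d = b1 ^ d * b2 ^ d := by
  classical
  have hd0 : d ≠ 0 := by omega
  have hA1 : a1.natDegree ≤ R := hR ▸ le_max_left _ _
  have hB1 : b1.natDegree ≤ R := hR ▸ le_max_right _ _
  have hRmax : 1 ≤ max a1.natDegree b1.natDegree := by rw [hR]; exact hR1
  have hAne := (card_roots_pow_sub_pow ha1 hb1 hc1 (show 1 ≤ d by omega) hRmax).1
  set A := a1 ^ d - b1 ^ d with hAdef
  set B := a2 ^ d - b2 ^ d with hBdef
  have hBne : B ≠ 0 := sub_ne_zero.2 hne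
  set g := gcd A B with hg
  have hg0 : g ≠ 0 := fun h0 => hAne ((gcd_eq_zero_iff A B).1 h0).1
  obtain ⟨ρ1, hρ1⟩ : g ∣ A := gcd_dvd_left A B
  obtain ⟨ρ2, hρ2⟩ : g ∣ B := gcd_dvd_right A B
  have hρ10 : ρ1 ≠ 0 := by rintro rfl; rw [mul_zero] at hρ1; exact hAne hρ1
  have hρ20 : ρ2 ≠ 0 := by rintro rfl; rw [mul_zero] at hρ2; exact hBne hρ2
  have hcop : IsCoprime ρ1 ρ2 := by
    obtain ⟨x, y, hxy⟩ := exists_gcd_eq_mul_add_mul A B
    refine ⟨x, y, ?_⟩
    apply mul_left_cancel₀ hg0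
    calc g * (x * ρ1 + y * ρ2) = (g * ρ1) * x + (g * ρ2) * y := by ring
      _ = A * x + B * y := by rw [← hρ1, ← hρ2]
      _ = g * 1 := by rw [mul_one]; exact hxy.symm
  have hGg : G.natDegree ≤ g.natDegree := natDegree_le_of_dvd (dvd_gcd hG1 hG2) hg0
  have hdA : A.natDegree ≤ d * R := by
    refine (natDegree_sub_le _ _).trans (max_le ?_ ?_)
    · rw [natDegree_pow]; exact Nat.mul_le_mul_left d hA1
    · rw [natDegree_pow]; exact Nat.mul_le_mul_left d hB1
  have hdB : B.natDegree ≤ d * R := by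
    refine (natDegree_sub_le _ _).trans (max_le ?_ ?_)
    · rw [natDegree_pow]; exact Nat.mul_le_mul_left d hA2
    · rw [natDegree_pow]; exact Nat.mul_le_mul_left d hB2
  have hr1 : g.natDegree + ρ1.natDegree ≤ d * R := by
    rw [← natDegree_mul hg0 hρ10, ← hρ1]; exact hdA
  have hr2 : g.natDegree + ρ2.natDegree ≤ d * R := by
    rw [← natDegree_mul hg0 hρ20, ← hρ2]; exact hdB
  have hrel : ρ2 * A = ρ1 * B := by
    rw [hρ1, hρ2]; ring
  -- the four terms
  set p1 := ρ2 * a1 ^ d with hp1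
  set p2 := (-ρ2) * b1 ^ d with hp2
  set p3 := (-ρ1) * a2 ^ d with hp3
  set p4 := ρ1 * b2 ^ d with hp4
  have hsum : p1 + p2 + p3 + p4 = 0 := by
    rw [hp1, hp2, hp3, hp4]
    linear_combination hrel
  have hp1ne : p1 ≠ 0 := mul_ne_zero hρ20 (pow_ne_zero d ha1)
  by_cases hW : W3 p1 p2 p3 = 0
  · obtain ⟨a, b, c, hbc, hr⟩ := exists_relation_of_W3_eq_zero hp1ne hW
    have hc0 : c ≠ 0 := by
      intro hc0
      have hb0 : b ≠ 0 := by
        rcases hbc with h | h
        · exact h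
        · exact absurd hc0 h
      rw [hc0, C_0, zero_mul, add_zero] at hr
      have h1 : ρ2 * (C a * a1 ^ d - C b * b1 ^ d) = 0 := by
        rw [hp1, hp2] at hr
        linear_combination hr
      rcases mul_eq_zero.1 h1 with h | h
      · exact hρ20 h
      · exact hb0 (no_const_rel ha1 hb1 hc1 (by omega) hRmax (sub_eq_zero.1 h)).2
    set α : F := -(a / c) with hα
    set β : F := -(b / c) with hβ
    have hp3' : p3 = C α * p1 + C β * p2 := by
      apply mul_left_cancel₀ (C_ne_zero.2 hc0)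
      have e1 : (C c : F[X]) * C α = - C a := by
        rw [← C_mul, ← C_neg]; congr 1; rw [hα]; field_simp
      have e2 : (C c : F[X]) * C β = - C b := by
        rw [← C_mul, ← C_neg]; congr 1; rw [hβ]; field_simp
      linear_combination hr - p1 * e1 - p2 * e2
    have hp4' : p4 = -(C (1 + α)) * p1 - C (1 + β) * p2 := by
      rw [C_add, C_add, C_1]
      linear_combination hsum - hp3'
    have e3 : ρ1 * a2 ^ d = ρ2 * (C (-α) * a1 ^ d + C β * b1 ^ d) := by
      rw [C_neg]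
      rw [hp3, hp1, hp2] at hp3'
      linear_combination -hp3'
    have e4 : ρ1 * b2 ^ d = ρ2 * (C (-(1 + α)) * a1 ^ d + C (1 + β) * b1 ^ d) := by
      rw [C_neg]
      rw [hp4, hp1, hp2] at hp4'
      linear_combination hp4'
    have hρ2u : IsUnit ρ2 := by
      have h1 : ρ2 ∣ a2 ^ d := by
        refine hcop.symm.dvd_of_dvd_mul_left ?_
        rw [e3]; exact dvd_mul_right _ _
      have h2 : ρ2 ∣ b2 ^ d := by
        refine hcop.symm.dvd_of_dvd_mul_left ?_
        rw [e4]; exact dvd_mul_right _ _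
      exact (hc2.pow (m := d) (n := d)).isUnit_of_dvd' h1 h2
    obtain ⟨e, heu, he⟩ := isUnit_iff.1 hρ2u
    have he0 : e ≠ 0 := heu.ne_zero
    obtain ⟨s1, hs1⟩ : ∃ s1 : F, s1 = e * (-α) := ⟨_, rfl⟩
    obtain ⟨s2, hs2⟩ : ∃ s2 : F, s2 = e * β := ⟨_, rfl⟩
    obtain ⟨t1, ht1⟩ : ∃ t1 : F, t1 = e * (-(1 + α)) := ⟨_, rfl⟩
    obtain ⟨t2, ht2⟩ : ∃ t2 : F, t2 = e * (1 + β) := ⟨_, rfl⟩
    have e3' : ρ1 * a2 ^ d = C s1 * a1 ^ d + C s2 * b1 ^ d := by
      rw [e3, ← he, hs1, hs2, C_mul, C_mul]; ring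
    have e4' : ρ1 * b2 ^ d = C t1 * a1 ^ d + C t2 * b1 ^ d := by
      rw [e4, ← he, ht1, ht2, C_mul, C_mul]; ring
    by_cases hD : s1 * t2 - s2 * t1 = 0
    · -- `a₂ / b₂` is constant
      exfalso
      have h1 : ρ1 * (C t2 * a2 ^ d - C s2 * b2 ^ d) = 0 := by
        have hD' : (C s1 * C t2 - C s2 * C t1 : F[X]) = 0 := by
          rw [← C_mul, ← C_mul, ← C_sub, hD, C_0]
        linear_combination C t2 * e3' - C s2 * e4' + a1 ^ d * hD'
      have h2 : C t2 * a2 ^ d = C s2 * b2 ^ d := by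
        rcases mul_eq_zero.1 h1 with h | h
        · exact absurd h hρ10
        · exact sub_eq_zero.1 h
      have hdeg0 : ¬ (1 ≤ max a2.natDegree b2.natDegree) := by
        intro h3
        obtain ⟨h4, h5⟩ := no_const_rel ha2 hb2 hc2 (show 1 ≤ d by omega) h3 h2
        rw [ht2] at h4
        rw [hs2] at h5
        have h6 : (1 + β) = 0 := (mul_eq_zero.1 h4).resolve_left he0
        have h7 : β = 0 := (mul_eq_zero.1 h5).resolve_left he0
        rw [h7, add_zero] at h6
        exact one_ne_zero h6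
      have h8 : a2.natDegree = 0 ∧ b2.natDegree = 0 := by
        have := Nat.lt_of_not_le hdeg0
        have h9 : max a2.natDegree b2.natDegree = 0 := by omega
        exact ⟨Nat.le_zero.1 (h9 ▸ le_max_left _ _), Nat.le_zero.1 (h9 ▸ le_max_right _ _)⟩
      have hB0 : B.natDegree = 0 := by
        apply Nat.le_zero.1
        refine (natDegree_sub_le _ _).trans (max_le ?_ ?_)
        · rw [natDegree_pow, h8.1, mul_zero]
        · rw [natDegree_pow, h8.2, mul_zero]
      have hg1 : g.natDegree ≤ B.natDegree := natDegree_le_of_dvd (gcd_dvd_right A B) hBne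
      have : G.natDegree = 0 := by omega
      rw [this] at hdeg
      omega
    · have h1 : ρ1 * (C t2 * a2 ^ d - C s2 * b2 ^ d) = C (s1 * t2 - s2 * t1) * a1 ^ d := by
        rw [C_sub, C_mul, C_mul]
        linear_combination C t2 * e3' - C s2 * e4'
      have h2 : ρ1 * (C s1 * b2 ^ d - C t1 * a2 ^ d) = C (s1 * t2 - s2 * t1) * b1 ^ d := by
        rw [C_sub, C_mul, C_mul]
        linear_combination C s1 * e4' - C t1 * e3'
      have hDu : IsUnit (C (s1 * t2 - s2 * t1) : F[X]) := isUnit_C.2 (IsUnit.mk0 _ hD)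
      have h3 : ρ1 ∣ a1 ^ d := by
        rw [← (hDu.dvd_mul_left)]
        rw [← h1]; exact dvd_mul_right _ _
      have h4 : ρ1 ∣ b1 ^ d := by
        rw [← (hDu.dvd_mul_left)]
        rw [← h2]; exact dvd_mul_right _ _
      have hρ1u : IsUnit ρ1 := (hc1.pow (m := d) (n := d)).isUnit_of_dvd' h3 h4
      obtain ⟨e', heu', he'⟩ := isUnit_iff.1 hρ1u
      have he0' : e' ≠ 0 := heu'.ne_zero
      have inv : (C e'⁻¹ * C e' : F[X]) = 1 := by
        rw [← C_mul, inv_mul_cancel₀ he0', C_1]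
      have f3 : a2 ^ d = C (e'⁻¹ * s1) * a1 ^ d + C (e'⁻¹ * s2) * b1 ^ d := by
        rw [C_mul, C_mul]
        rw [← he'] at e3'
        linear_combination C e'⁻¹ * e3' - a2 ^ d * inv
      have f4 : b2 ^ d = C (e'⁻¹ * t1) * a1 ^ d + C (e'⁻¹ * t2) * b1 ^ d := by
        rw [C_mul, C_mul]
        rw [← he'] at e4'
        linear_combination C e'⁻¹ * e4' - b2 ^ d * inv
      have g3 := no_fermat ha1 hb1 hc1 hd hR1 hR hA2 f3
      have g4 := no_fermat ha1 hb1 hc1 hd hR1 hR hB2 f4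
      have hi : e'⁻¹ ≠ 0 := inv_ne_zero he0'
      have g3' : s1 = 0 ∨ s2 = 0 := by
        rcases g3 with h | h
        · exact Or.inl ((mul_eq_zero.1 h).resolve_left hi)
        · exact Or.inr ((mul_eq_zero.1 h).resolve_left hi)
      have g4' : t1 = 0 ∨ t2 = 0 := by
        rcases g4 with h | h
        · exact Or.inl ((mul_eq_zero.1 h).resolve_left hi)
        · exact Or.inr ((mul_eq_zero.1 h).resolve_left hi)
      have hrel' : C e * (a1 ^ d - b1 ^ d) = C e' * (a2 ^ d - b2 ^ d) := by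
        rw [he, he']; exact hrel
      by_cases hs20 : s2 = 0
      · -- `a₂ ^ d = const a₁ ^ d`
        left
        have ht10 : t1 = 0 := by
          rcases g4' with h | h
          · exact h
          · exfalso; apply hD; rw [hs20, h]; ring
        have f3' : C e' * a2 ^ d = C s1 * a1 ^ d := by
          rw [← he', hs20] at e3'; rw [e3', C_0]; ring
        have f4' : C e' * b2 ^ d = C t2 * b1 ^ d := by
          rw [← he', ht10] at e4'; rw [e4', C_0]; ring
        have h5 : C (e - s1) * a1 ^ d = C (e - t2) * b1 ^ d := by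
          rw [C_sub, C_sub]
          linear_combination hrel' + f3' - f4'
        obtain ⟨h6, h7⟩ := no_const_rel ha1 hb1 hc1 (show 1 ≤ d by omega) hRmax h5
        have h8 : s1 = t2 := by
          have := sub_eq_zero.1 h6
          have h9 := sub_eq_zero.1 h7
          rw [← this, ← h9]
        apply mul_left_cancel₀ (C_ne_zero.2 he0')
        rw [h8] at f3'
        linear_combination b1 ^ d * f3' - a1 ^ d * f4'
      · right
        have hs10 : s1 = 0 := g3'.resolve_right hs20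
        have ht20 : t2 = 0 := by
          rcases g4' with h | h
          · exfalso; apply hD; rw [hs10, h]; ring
          · exact h
        have f3' : C e' * a2 ^ d = C s2 * b1 ^ d := by
          rw [← he', hs10] at e3'; rw [e3', C_0]; ring
        have f4' : C e' * b2 ^ d = C t1 * a1 ^ d := by
          rw [← he', ht20] at e4'; rw [e4', C_0]; ring
        have h5 : C (e + t1) * a1 ^ d = C (e + s2) * b1 ^ d := by
          rw [C_add, C_add]
          linear_combination hrel' + f3' - f4'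
        obtain ⟨h6, h7⟩ := no_const_rel ha1 hb1 hc1 (show 1 ≤ d by omega) hRmax h5
        have h8 : s2 = t1 := by
          have h10 : t1 = -e := by linear_combination h6
          have h9 : s2 = -e := by linear_combination h7
          rw [h10, h9]
        apply mul_left_cancel₀ (C_ne_zero.2 he0')
        rw [h8] at f3'
        linear_combination a1 ^ d * f3' - b1 ^ d * f4'
  · -- nonzero Wronskian: degree count
    exfalso
    have hW4 : W3 p1 p2 p4 = - W3 p1 p2 p3 := W3_of_sum p1 p2 p3 p4 hsum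
    have hd2 : 2 ≤ d := by omega
    have k1 := dvd_W3 a1 b1 a2 ρ2 (-ρ2) (-ρ1) hd2
    have k2 := dvd_W3 a1 b1 b2 ρ2 (-ρ2) ρ1 hd2
    rw [← hp1, ← hp2, ← hp3] at k1
    rw [← hp1, ← hp2, ← hp4, hW4, dvd_neg] at k2
    set Q := a1 ^ (d - 2) * b1 ^ (d - 2) with hQ
    have hQ0 : Q ≠ 0 := mul_ne_zero (pow_ne_zero _ ha1) (pow_ne_zero _ hb1)
    have k3 : Q * (a2 ^ (d - 2) * b2 ^ (d - 2)) ∣ W3 p1 p2 p3 := by
      obtain ⟨w, hw⟩ : Q ∣ W3 p1 p2 p3 := (dvd_mul_right _ _).trans k1
      rw [hw] at k1 k2 ⊢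
      have k1' := (mul_dvd_mul_iff_left hQ0).1 k1
      have k2' := (mul_dvd_mul_iff_left hQ0).1 k2
      exact mul_dvd_mul_left Q ((hc2.pow (m := d - 2) (n := d - 2)).mul_dvd k1' k2')
    have k4 := natDegree_le_of_dvd k3 hW
    have ha2' : a2 ^ (d - 2) ≠ 0 := pow_ne_zero _ ha2
    have hb2' : b2 ^ (d - 2) ≠ 0 := pow_ne_zero _ hb2
    rw [natDegree_mul hQ0 (mul_ne_zero ha2' hb2'), hQ,
      natDegree_mul (pow_ne_zero _ ha1) (pow_ne_zero _ hb1), natDegree_mul ha2' hb2',
      natDegree_pow, natDegree_pow, natDegree_pow, natDegree_pow] at k4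
    -- degrees of the terms
    have n1 : p1.natDegree = ρ2.natDegree + d * a1.natDegree := by
      rw [hp1, natDegree_mul hρ20 (pow_ne_zero d ha1), natDegree_pow]
    have n2 : p2.natDegree = ρ2.natDegree + d * b1.natDegree := by
      rw [hp2, natDegree_mul (neg_ne_zero.2 hρ20) (pow_ne_zero d hb1), natDegree_pow,
        natDegree_neg]
    have n3 : p3.natDegree = ρ1.natDegree + d * a2.natDegree := by
      rw [hp3, natDegree_mul (neg_ne_zero.2 hρ10) (pow_ne_zero d ha2), natDegree_pow,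
        natDegree_neg]
    have n4 : p4.natDegree = ρ1.natDegree + d * b2.natDegree := by
      rw [hp4, natDegree_mul hρ10 (pow_ne_zero d hb2), natDegree_pow]
    -- dropping the first or the second term
    have w234 : (W3 p1 p2 p3).natDegree ≤ p2.natDegree + p3.natDegree + p4.natDegree := by
      have h1 : W3 p2 p3 p4 = - W3 p1 p2 p3 := by
        have hs' : p2 + p3 + p1 + p4 = 0 := by linear_combination hsum
        rw [W3_of_sum p2 p3 p1 p4 hs']
        unfold W3; ring
      have h2 := natDegree_W3_le p2 p3 p4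
      rwa [h1, natDegree_neg] at h2
    have w134 : (W3 p1 p2 p3).natDegree ≤ p1.natDegree + p3.natDegree + p4.natDegree := by
      have h1 : W3 p1 p3 p4 = W3 p1 p2 p3 := by
        have hs' : p1 + p3 + p2 + p4 = 0 := by linear_combination hsum
        rw [W3_of_sum p1 p3 p2 p4 hs']
        unfold W3; ring
      have h2 := natDegree_W3_le p1 p3 p4
      rwa [h1] at h2
    obtain ⟨e, rfl⟩ : ∃ e, d = e + 2 := ⟨d - 2, by omega⟩
    have hee : e + 2 - 2 = e := by omega
    rw [hee] at k4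
    have hdR : (2 * (e + 2) + 8) * R = 2 * (e * R) + 12 * R := by ring
    have hdR2 : (e + 2) * R = e * R + 2 * R := by ring
    rw [hdR] at hdeg
    rw [hdR2] at hr1 hr2
    have x1 : (e + 2) * a1.natDegree = e * a1.natDegree + 2 * a1.natDegree := by ring
    have x2 : (e + 2) * b1.natDegree = e * b1.natDegree + 2 * b1.natDegree := by ring
    have x3 : (e + 2) * a2.natDegree = e * a2.natDegree + 2 * a2.natDegree := by ring
    have x4 : (e + 2) * b2.natDegree = e * b2.natDegree + 2 * b2.natDegree := by ring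
    rw [x1] at n1
    rw [x2] at n2
    rw [x3] at n3
    rw [x4] at n4
    rcases le_total a1.natDegree b1.natDegree with h | h
    · have hb : b1.natDegree = R := by rw [← hR, max_eq_right h]
      rw [hb] at k4 n2
      omega
    · have ha : a1.natDegree = R := by rw [← hR, max_eq_left h]
      rw [ha] at k4 n1
      omega

end Pool.Agent.Lib.P62a0c3
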