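import Pool.Agent.Lib.P62a0c3.Count

/-!
# Finite invariant subsets of `ℙ¹(F(t))` for bicritical maps
-/

namespace Pool.Agent.Lib.P62a0c3

open Polynomial

/-- The point `[p : q]` of the projective line `OnePoint L`. -/
noncomputable def toP1 {L : Type*} [Field L] (p q : L) : OnePoint L :=
  open Classical in if q = 0 then OnePoint.infty else ((p / q : L) : OnePoint L)

/-- The rational map `z ↦ (α z ^ d + β) / (γ z ^ d + δ)` on `ℙ¹(L)`. -/
noncomputable def bic {L : Type*} [Field L] (α β γ δ : L) (d : ℕ) : OnePoint L → OnePoint L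
  | OnePoint.infty => toP1 α γ
  | OnePoint.some z => toP1 (α * z ^ d + β) (γ * z ^ d + δ)

section toP1

variable {L : Type*} [Field L]

theorem toP1_mul (c p q : L) (hc : c ≠ 0) : toP1 (c * p) (c * q) = toP1 p q := by
  unfold toP1
  by_cases hq : q = 0
  · simp [hq]
  · rw [if_neg (mul_ne_zero hc hq), if_neg hq, mul_div_mul_left _ _ hc]

theorem bic_infty (α β γ δ : L) (d : ℕ) : bic α β γ δ d OnePoint.infty = toP1 α γ := rfl

theorem bic_some (α β γ δ : L) (d : ℕ) (z : L) :
    bic α β γ δ d (z : OnePoint L) = toP1 (α * z ^ d + β) (γ * z ^ d + δ) := rfl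

end toP1

section ratfunc

variable {F : Type*} [Field F]

/-- Numerator of a point of `ℙ¹(F(t))`. -/
noncomputable def nm : OnePoint (RatFunc F) → F[X]
  | OnePoint.infty => 1
  | OnePoint.some z => z.num

/-- Denominator of a point of `ℙ¹(F(t))`. -/
noncomputable def dn : OnePoint (RatFunc F) → F[X]
  | OnePoint.infty => 0
  | OnePoint.some z => z.denom

theorem nm_infty : nm (OnePoint.infty : OnePoint (RatFunc F)) = 1 := rfl
theorem dn_infty : dn (OnePoint.infty : OnePoint (RatFunc F)) = 0 := rfl
theorem nm_some (z : RatFunc F) : nm (z : OnePoint (RatFunc F)) = z.num := rfl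
theorem dn_some (z : RatFunc F) : dn (z : OnePoint (RatFunc F)) = z.denom := rfl

theorem coprime_nm_dn (p : OnePoint (RatFunc F)) : IsCoprime (nm p) (dn p) := by
  induction p using OnePoint.rec with
  | infty => rw [nm_infty]; exact isCoprime_one_left
  | coe z => exact RatFunc.isCoprime_num_denom z

theorem algebraMap_denom_ne_zero (z : RatFunc F) :
    algebraMap F[X] (RatFunc F) z.denom ≠ 0 := by
  rw [Ne, FaithfulSMul.algebraMap_eq_zero_iff]
  exact RatFunc.denom_ne_zero z

theorem algebraMap_num_eq (z : RatFunc F) :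
    algebraMap F[X] (RatFunc F) z.num = z * algebraMap F[X] (RatFunc F) z.denom := by
  have h := RatFunc.num_div_denom z
  rw [div_eq_iff (algebraMap_denom_ne_zero z)] at h
  exact h

/-- Every nonzero vector is a nonzero multiple of the coprime representative of its point. -/
theorem exists_scalar (p q : RatFunc F) (h : p ≠ 0 ∨ q ≠ 0) :
    ∃ c : RatFunc F, c ≠ 0 ∧ p = c * algebraMap F[X] (RatFunc F) (nm (toP1 p q)) ∧
      q = c * algebraMap F[X] (RatFunc F) (dn (toP1 p q)) := by
  by_cases hq : q = 0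
  · have hp : p ≠ 0 := by
      rcases h with h | h
      · exact h
      · exact absurd hq h
    refine ⟨p, hp, ?_, ?_⟩
    · rw [toP1, if_pos hq, nm_infty, map_one, mul_one]
    · rw [toP1, if_pos hq, dn_infty, map_zero, mul_zero, hq]
  · have hd := algebraMap_denom_ne_zero (p / q)
    refine ⟨q / algebraMap F[X] (RatFunc F) (p / q).denom, div_ne_zero hq hd, ?_, ?_⟩
    · rw [toP1, if_neg hq, nm_some, algebraMap_num_eq]
      field_simp
    · rw [toP1, if_neg hq, dn_some]
      field_simp

theorem bic_eq_toP1 (α β γ δ : RatFunc F) (d : ℕ) (hd : d ≠ 0) (p : OnePoint (RatFunc F)) :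
    bic α β γ δ d p =
      toP1 (α * algebraMap F[X] (RatFunc F) (nm p) ^ d + β * algebraMap F[X] (RatFunc F) (dn p) ^ d)
        (γ * algebraMap F[X] (RatFunc F) (nm p) ^ d +
          δ * algebraMap F[X] (RatFunc F) (dn p) ^ d) := by
  induction p using OnePoint.rec with
  | infty => rw [bic_infty, nm_infty, dn_infty]; simp [hd]
  | coe z =>
    rw [bic_some, nm_some, dn_some, algebraMap_num_eq]
    set e := algebraMap F[X] (RatFunc F) z.denom with he
    have he0 : e ^ d ≠ 0 := pow_ne_zero d (algebraMap_denom_ne_zero z)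
    rw [← toP1_mul (e ^ d) _ _ he0]
    congr 1 <;> ring

theorem vec_ne_zero (p : OnePoint (RatFunc F)) {α β γ δ : RatFunc F} {d : ℕ} (hd : d ≠ 0)
    (hdet : α * δ - β * γ ≠ 0) :
    α * algebraMap F[X] (RatFunc F) (nm p) ^ d + β * algebraMap F[X] (RatFunc F) (dn p) ^ d ≠ 0 ∨
    γ * algebraMap F[X] (RatFunc F) (nm p) ^ d +
          δ * algebraMap F[X] (RatFunc F) (dn p) ^ d ≠ 0 := by
  by_contra h
  push Not at h
  obtain ⟨h1, h2⟩ := h
  set u := algebraMap F[X] (RatFunc F) (nm p) with hu
  set v := algebraMap F[X] (RatFunc F) (dn p) with hv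
  have e1 : (α * δ - β * γ) * u ^ d = 0 := by linear_combination δ * h1 - β * h2
  have e2 : (α * δ - β * γ) * v ^ d = 0 := by linear_combination α * h2 - γ * h1
  have f1 : u = 0 := pow_eq_zero_iff hd |>.1 ((mul_eq_zero.1 e1).resolve_left hdet)
  have f2 : v = 0 := pow_eq_zero_iff hd |>.1 ((mul_eq_zero.1 e2).resolve_left hdet)
  obtain ⟨x, y, hxy⟩ := coprime_nm_dn p
  have := congrArg (algebraMap F[X] (RatFunc F)) hxy
  rw [map_add, map_mul, map_mul, ← hu, ← hv, f1, f2, map_one] at this
  simp at this

theorem eq_of_cross (p q : OnePoint (RatFunc F)) (h : nm p * dn q - nm q * dn p = 0) : p = q := by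
  induction p using OnePoint.rec with
  | infty =>
    induction q using OnePoint.rec with
    | infty => rfl
    | coe w =>
      rw [nm_infty, dn_infty, dn_some, mul_zero, sub_zero, one_mul] at h
      exact absurd h (RatFunc.denom_ne_zero w)
  | coe z =>
    induction q using OnePoint.rec with
    | infty =>
      rw [nm_infty, dn_infty, dn_some, mul_zero, zero_sub, one_mul, neg_eq_zero] at h
      exact absurd h (RatFunc.denom_ne_zero z)
    | coe w =>
      rw [nm_some, nm_some, dn_some, dn_some] at h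
      have h1 := congrArg (algebraMap F[X] (RatFunc F)) h
      rw [map_sub, map_mul, map_mul, map_zero, algebraMap_num_eq, algebraMap_num_eq] at h1
      have hz := algebraMap_denom_ne_zero z
      have hw := algebraMap_denom_ne_zero w
      have h2 : (z - w) * (algebraMap F[X] (RatFunc F) z.denom *
          algebraMap F[X] (RatFunc F) w.denom) = 0 := by linear_combination h1
      have h3 := (mul_eq_zero.1 h2).resolve_right (mul_ne_zero hz hw)
      rw [sub_eq_zero.1 h3]

/-- `d`-th power fibres. -/
theorem pow_eq_of_cross (z w : RatFunc F) (d : ℕ)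
    (h : nm (z : OnePoint (RatFunc F)) ^ d * dn (w : OnePoint (RatFunc F)) ^ d -
      nm (w : OnePoint (RatFunc F)) ^ d * dn (z : OnePoint (RatFunc F)) ^ d = 0) :
    w ^ d = z ^ d := by
  rw [nm_some, nm_some, dn_some, dn_some] at h
  have h1 := congrArg (algebraMap F[X] (RatFunc F)) h
  simp only [map_sub, map_mul, map_pow, map_zero] at h1
  rw [algebraMap_num_eq, algebraMap_num_eq] at h1
  have hz := pow_ne_zero d (algebraMap_denom_ne_zero z)
  have hw := pow_ne_zero d (algebraMap_denom_ne_zero w)
  have h2 : (z ^ d - w ^ d) * (algebraMap F[X] (RatFunc F) z.denom ^ d *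
          algebraMap F[X] (RatFunc F) w.denom ^ d) = 0 := by linear_combination h1
  have h3 := (mul_eq_zero.1 h2).resolve_right (mul_ne_zero hz hw)
  exact (sub_eq_zero.1 h3).symm

/-- Height of an element of `F(t)`. -/
noncomputable def ht (z : RatFunc F) : ℕ := max z.num.natDegree z.denom.natDegree

theorem ht_zero : ht (0 : RatFunc F) = 0 := by
  unfold ht; simp

theorem natDegree_nm_le {R : ℕ} (p : OnePoint (RatFunc F))
    (h : ∀ z : RatFunc F, p = z → z ≠ 0 → ht z ≤ R) :
    (nm p).natDegree ≤ R ∧ (dn p).natDegree ≤ R := by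
  induction p using OnePoint.rec with
  | infty => rw [nm_infty, dn_infty]; simp
  | coe z =>
    rw [nm_some, dn_some]
    rcases eq_or_ne z 0 with rfl | hz
    · simp
    · have := h z rfl hz
      exact ⟨(le_max_left _ _).trans this, (le_max_right _ _).trans this⟩

end ratfunc

variable {F : Type*} [Field F] [IsAlgClosed F] [CharZero F]

/-- Main bound in the normalised situation. -/
theorem normalised {d R : ℕ} (hd : 49 ≤ d) (hR1 : 1 ≤ R) {α β γ δ : RatFunc F}
    (hdet : α * δ - β * γ ≠ 0) (P : Finset (OnePoint (RatFunc F)))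
    (hP : ∀ p ∈ P, bic α β γ δ d p ∈ P) (h1 : ((1 : RatFunc F) : OnePoint (RatFunc F)) ∈ P)
    (hle : ∀ z : RatFunc F, (z : OnePoint (RatFunc F)) ∈ P → z ≠ 0 → ht z ≤ R)
    (y : RatFunc F) (hy : (y : OnePoint (RatFunc F)) ∈ P) (hy0 : y ≠ 0) (hyR : ht y = R) :
    P.card < 1000 * d := by
  classical
  by_contra hcard
  push Not at hcard
  have hd0 : d ≠ 0 := by omega
  -- the scalars
  have hsc : ∀ p : OnePoint (RatFunc F), ∃ c : RatFunc F, c ≠ 0 ∧
      α * algebraMap F[X] (RatFunc F) (nm p) ^ d + β * algebraMap F[X] (RatFunc F) (dn p) ^ d =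
        c * algebraMap F[X] (RatFunc F) (nm (bic α β γ δ d p)) ∧
      γ * algebraMap F[X] (RatFunc F) (nm p) ^ d + δ * algebraMap F[X] (RatFunc F) (dn p) ^ d =
        c * algebraMap F[X] (RatFunc F) (dn (bic α β γ δ d p)) := by
    intro p
    rw [bic_eq_toP1 α β γ δ d hd0 p]
    exact exists_scalar _ _ (vec_ne_zero p hd0 hdet)
  choose c hc0 hcn hcd using hsc
  set Δ := α * δ - β * γ with hΔ
  have hcross : ∀ p q : OnePoint (RatFunc F),
      algebraMap F[X] (RatFunc F) (nm (bic α β γ δ d p) * dn (bic α β γ δ d q) -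
        nm (bic α β γ δ d q) * dn (bic α β γ δ d p)) * (c p * c q) =
      Δ * algebraMap F[X] (RatFunc F) (nm p ^ d * dn q ^ d - nm q ^ d * dn p ^ d) := by
    intro p q
    simp only [map_sub, map_mul, map_pow]
    have e1 := hcn p
    have e2 := hcd p
    have e3 := hcn q
    have e4 := hcd q
    rw [hΔ]
    calc _ = (c p * algebraMap F[X] (RatFunc F) (nm (bic α β γ δ d p))) *
          (c q * algebraMap F[X] (RatFunc F) (dn (bic α β γ δ d q))) -
          (c q * algebraMap F[X] (RatFunc F) (nm (bic α β γ δ d q))) *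
          (c p * algebraMap F[X] (RatFunc F) (dn (bic α β γ δ d p))) := by ring
      _ = _ := by rw [← e1, ← e2, ← e3, ← e4]; ring
  have hinj : Function.Injective (algebraMap F[X] (RatFunc F)) :=
    FaithfulSMul.algebraMap_injective _ _
  refine main_count (ι := P) (fun p => ⟨bic α β γ δ d p, hP p p.2⟩) (fun p => nm (p : OnePoint (RatFunc F)))
    (fun p => dn (p : OnePoint (RatFunc F))) (d := d) (R := R) hd hR1 ?_ ?_ ?_ ?_ ?_ ?_ ?_
    ⟨_, h1⟩ ⟨_, hy⟩ ?_ ?_ ?_ ?_ ?_ ?_
  · exact fun p => coprime_nm_dn _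
  · rintro ⟨p, hp⟩
    exact (natDegree_nm_le p fun z hz hz0 => hle z (hz ▸ hp) hz0).1
  · rintro ⟨p, hp⟩
    exact (natDegree_nm_le p fun z hz hz0 => hle z (hz ▸ hp) hz0).2
  · rintro ⟨p, hp⟩ ⟨q, hq⟩ h
    exact Subtype.ext (eq_of_cross p q h)
  · rintro ⟨x, hx⟩ ⟨y', hy'⟩ ⟨z, hz⟩ ⟨w, hw⟩
    apply hinj
    dsimp only
    have hprod : c x * c y' * c z * c w ≠ 0 :=
      mul_ne_zero (mul_ne_zero (mul_ne_zero (hc0 x) (hc0 y')) (hc0 z)) (hc0 w)
    apply mul_left_cancel₀ hprod
    have k1 := hcross x y'
    have k2 := hcross z w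
    have k3 := hcross x w
    have k4 := hcross z y'
    rw [map_mul, map_mul, map_mul, map_mul, map_mul, map_mul]
    set A1 := algebraMap F[X] (RatFunc F) (nm (bic α β γ δ d x) * dn (bic α β γ δ d y') -
        nm (bic α β γ δ d y') * dn (bic α β γ δ d x))
    set A2 := algebraMap F[X] (RatFunc F) (nm (bic α β γ δ d z) * dn (bic α β γ δ d w) -
        nm (bic α β γ δ d w) * dn (bic α β γ δ d z))
    set A3 := algebraMap F[X] (RatFunc F) (nm (bic α β γ δ d x) * dn (bic α β γ δ d w) -
        nm (bic α β γ δ d w) * dn (bic α β γ δ d x))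
    set A4 := algebraMap F[X] (RatFunc F) (nm (bic α β γ δ d z) * dn (bic α β γ δ d y') -
        nm (bic α β γ δ d y') * dn (bic α β γ δ d z))
    set B1 := algebraMap F[X] (RatFunc F) (nm x ^ d * dn y' ^ d - nm y' ^ d * dn x ^ d)
    set B2 := algebraMap F[X] (RatFunc F) (nm z ^ d * dn w ^ d - nm w ^ d * dn z ^ d)
    set B3 := algebraMap F[X] (RatFunc F) (nm x ^ d * dn w ^ d - nm w ^ d * dn x ^ d)
    set B4 := algebraMap F[X] (RatFunc F) (nm z ^ d * dn y' ^ d - nm y' ^ d * dn z ^ d)
    calc c x * c y' * c z * c w * (A1 * A2 * B3 * B4)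
        = (A1 * (c x * c y')) * (A2 * (c z * c w)) * B3 * B4 := by ring
      _ = (Δ * B1) * (Δ * B2) * B3 * B4 := by rw [k1, k2]
      _ = (Δ * B3) * (Δ * B4) * B1 * B2 := by ring
      _ = (A3 * (c x * c w)) * (A4 * (c z * c y')) * B1 * B2 := by rw [k3, k4]
      _ = _ := by ring
  · rintro ⟨x, hx⟩ ⟨y', hy'⟩ h
    have h' : bic α β γ δ d x = bic α β γ δ d y' := congrArg Subtype.val h
    have k := hcross x y'
    rw [h', sub_self, map_zero, zero_mul] at k
    apply hinj
    rw [map_zero]
    exact (mul_eq_zero.1 k.symm).resolve_left hdet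
  · rintro ⟨x, hx⟩
    induction x using OnePoint.rec with
    | infty =>
      have : Subsingleton {y : P // nm (OnePoint.infty : OnePoint (RatFunc F)) ^ d *
          dn (y : OnePoint (RatFunc F)) ^ d - nm (y : OnePoint (RatFunc F)) ^ d *
          dn (OnePoint.infty : OnePoint (RatFunc F)) ^ d = 0} := by
        constructor
        rintro ⟨⟨p, hp⟩, h⟩ ⟨⟨q, hq⟩, h'⟩
        have key : ∀ p : OnePoint (RatFunc F), nm (OnePoint.infty : OnePoint (RatFunc F)) ^ d *
            dn p ^ d - nm p ^ d * dn (OnePoint.infty : OnePoint (RatFunc F)) ^ d = 0 →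
            p = OnePoint.infty := by
          intro p hp
          rw [nm_infty, dn_infty, zero_pow hd0, mul_zero, sub_zero, one_pow, one_mul] at hp
          induction p using OnePoint.rec with
          | infty => rfl
          | coe z =>
            exact absurd (pow_eq_zero_iff hd0 |>.1 hp) (RatFunc.denom_ne_zero z)
        apply Subtype.ext
        apply Subtype.ext
        exact (key p h).trans (key q h').symm
      have := Finite.card_le_one_iff_subsingleton.2 this
      exact this.trans (by omega)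
    | coe z =>
      have hmem : ∀ y : {y : P // nm ((z : RatFunc F) : OnePoint (RatFunc F)) ^ d *
          dn (y : OnePoint (RatFunc F)) ^ d - nm (y : OnePoint (RatFunc F)) ^ d *
          dn ((z : RatFunc F) : OnePoint (RatFunc F)) ^ d = 0},
          ∃ w : RatFunc F, ((y : P) : OnePoint (RatFunc F)) = w ∧ w ^ d = z ^ d := by
        rintro ⟨⟨p, hp⟩, h⟩
        dsimp only at h ⊢
        induction p using OnePoint.rec with
        | infty =>
          rw [nm_infty, dn_infty, zero_pow hd0, mul_zero, zero_sub, one_pow, one_mul,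
            neg_eq_zero] at h
          exact absurd (pow_eq_zero_iff hd0 |>.1 h) (RatFunc.denom_ne_zero z)
        | coe w => exact ⟨w, rfl, pow_eq_of_cross z w d h⟩
      choose g hg1 hg2 using hmem
      have hginj : Function.Injective g := by
        intro y1 y2 h
        apply Subtype.ext
        apply Subtype.ext
        rw [hg1 y1, hg1 y2, h]
      have hfin : Nat.card {w : RatFunc F // w ^ d = z ^ d} ≤ d := by
        have h1 : ∀ w : RatFunc F, w ^ d = z ^ d ↔ w ∈ (nthRoots d (z ^ d)).toFinset := by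
          intro w
          rw [Multiset.mem_toFinset, mem_nthRoots (by omega)]
        rw [Nat.card_congr (Equiv.subtypeEquivRight h1)]
        rw [Nat.card_eq_fintype_card, Fintype.card_coe]
        exact (Multiset.toFinset_card_le _).trans (card_nthRoots d _)
      have hfinite : Finite {w : RatFunc F // w ^ d = z ^ d} := by
        have h1 : ∀ w : RatFunc F, w ^ d = z ^ d ↔ w ∈ (nthRoots d (z ^ d)).toFinset := by
          intro w
          rw [Multiset.mem_toFinset, mem_nthRoots (by omega)]
        exact Finite.of_equiv _ (Equiv.subtypeEquivRight h1).symm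
      refine le_trans ?_ hfin
      refine Nat.card_le_card_of_injective (fun y => (⟨g y, hg2 y⟩ : {w : RatFunc F // w ^ d = z ^ d})) ?_
      intro y1 y2 h
      exact hginj (congrArg Subtype.val h)
  · dsimp only; rw [nm_some, RatFunc.num_one]
  · dsimp only; rw [dn_some, RatFunc.denom_one]
  · dsimp only; rw [nm_some]; exact RatFunc.num_ne_zero hy0
  · dsimp only; rw [dn_some]; exact RatFunc.denom_ne_zero y
  · dsimp only; rw [nm_some, dn_some]; exact hyR
  · rw [Fintype.card_coe]; exact hcard

end Pool.Agent.Lib.P62a0c3
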