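import Mathlib

/-!
# Distinct zeros of `a ^ d - b ^ d`

A consequence of the Mason-Stothers theorem: for coprime polynomials `a, b` over an algebraically
closed field of characteristic zero, the polynomial `a ^ d - b ^ d` has many distinct roots.
-/

namespace Pool.Agent.Lib.P62a0c3

open Polynomial UniqueFactorizationMonoid UniqueFactorizationDomain EuclideanDomain

variable {F : Type*} [Field F] [IsAlgClosed F] [CharZero F]

open Classical in
/-- The radical of a polynomial has degree at most the number of distinct roots. -/
theorem natDegree_radical_le_card (c : F[X]) :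
    (radical c).natDegree ≤ c.roots.toFinset.card := by
  classical
  rcases eq_or_ne c 0 with rfl | hc
  · simp
  have hr0 : (radical c : F[X]) ≠ 0 := radical_ne_zero
  have hsep : (radical c : F[X]).Separable :=
    (PerfectField.separable_iff_squarefree).2 squarefree_radical
  have hcard : (radical c : F[X]).roots.card = (radical c : F[X]).natDegree :=
    (splits_iff_card_roots).1 (IsAlgClosed.splits _)
  have hnd : (radical c : F[X]).roots.Nodup := nodup_roots hsep
  rw [← hcard]
  have h1 : (radical c : F[X]).roots.toFinset ⊆ c.roots.toFinset := by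
    intro x hx
    rw [Multiset.mem_toFinset] at hx ⊢
    rw [mem_roots hr0] at hx
    rw [mem_roots hc]
    exact hx.dvd radical_dvd_self
  calc (radical c : F[X]).roots.card = (radical c : F[X]).roots.toFinset.card := by
        rw [Multiset.toFinset_card_of_nodup hnd]
    _ ≤ _ := Finset.card_le_card h1

open Classical in
/-- Mason-Stothers for `a ^ d - b ^ d`. -/
theorem card_roots_pow_sub_pow {a b : F[X]} (ha : a ≠ 0) (hb : b ≠ 0) (hab : IsCoprime a b)
    {d : ℕ} (hd : 1 ≤ d) (hR : 1 ≤ max a.natDegree b.natDegree) :
    a ^ d - b ^ d ≠ 0 ∧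
    d * max a.natDegree b.natDegree + 1 ≤
      a.natDegree + b.natDegree + (a ^ d - b ^ d).roots.toFinset.card := by
  classical
  have hd0 : d ≠ 0 := by omega
  have hcop : IsCoprime (a ^ d) (b ^ d) := hab.pow
  have hne : a ^ d - b ^ d ≠ 0 := by
    intro h
    have h1 : a ^ d = b ^ d := sub_eq_zero.1 h
    rw [h1] at hcop
    have hu : IsUnit (b ^ d) := (isCoprime_self).1 hcop
    have hu2 : IsUnit (a ^ d) := by rw [h1]; exact hu
    have ha' := (isUnit_pow_iff hd0).1 hu2
    have hb' := (isUnit_pow_iff hd0).1 hu
    have e1 := natDegree_eq_zero_of_isUnit ha'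
    have e2 := natDegree_eq_zero_of_isUnit hb'
    rw [e1, e2] at hR
    simp at hR
  refine ⟨hne, ?_⟩
  have hsum : a ^ d + (-(b ^ d)) + (-(a ^ d - b ^ d)) = 0 := by ring
  have hcop' : IsCoprime (a ^ d) (-(b ^ d)) := hcop.neg_right
  have habc := Polynomial.abc (pow_ne_zero d ha) (neg_ne_zero.2 (pow_ne_zero d hb))
    (neg_ne_zero.2 hne) hcop' hsum
  rcases habc with ⟨h1, h2, _⟩ | ⟨h1, h2, _⟩
  · have hrad : (radical (a ^ d * -(b ^ d) * -(a ^ d - b ^ d)) : F[X]).natDegree ≤
        a.natDegree + b.natDegree + (a ^ d - b ^ d).roots.toFinset.card := by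
      have e1 : (radical (a ^ d * -(b ^ d) * -(a ^ d - b ^ d)) : F[X]) ∣
          radical (a ^ d * -(b ^ d)) * radical (-(a ^ d - b ^ d)) := radical_mul_dvd
      have e2 : (radical (a ^ d * -(b ^ d)) : F[X]) ∣ radical (a ^ d) * radical (-(b ^ d)) :=
        radical_mul_dvd
      have e3 : (radical (a ^ d * -(b ^ d) * -(a ^ d - b ^ d)) : F[X]) ∣
          radical a * radical b * radical (a ^ d - b ^ d) := by
        refine e1.trans ?_
        rw [radical_neg]
        refine mul_dvd_mul_right ?_ _
        refine e2.trans ?_
        rw [radical_neg, radical_pow a hd0, radical_pow b hd0]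
      have hnz : (radical a * radical b * radical (a ^ d - b ^ d) : F[X]) ≠ 0 :=
        mul_ne_zero (mul_ne_zero radical_ne_zero radical_ne_zero) radical_ne_zero
      calc _ ≤ (radical a * radical b * radical (a ^ d - b ^ d) : F[X]).natDegree :=
            natDegree_le_of_dvd e3 hnz
        _ = (radical a).natDegree + (radical b).natDegree +
              (radical (a ^ d - b ^ d)).natDegree := by
            rw [natDegree_mul (mul_ne_zero radical_ne_zero radical_ne_zero) radical_ne_zero,
              natDegree_mul radical_ne_zero radical_ne_zero]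
        _ ≤ _ := by
            gcongr
            · exact natDegree_radical_le
            · exact natDegree_radical_le
            · convert natDegree_radical_le_card (a ^ d - b ^ d)
    rw [natDegree_neg, natDegree_pow] at h2
    rw [natDegree_pow] at h1
    have hm : d * max a.natDegree b.natDegree + 1 ≤
        (radical (a ^ d * -(b ^ d) * -(a ^ d - b ^ d)) : F[X]).natDegree := by
      rcases le_total a.natDegree b.natDegree with h | h
      · rw [max_eq_right h]; exact h2
      · rw [max_eq_left h]; exact h1
    exact hm.trans hrad
  · exfalso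
    have e1 := derivative_eq_zero.1 h1
    have e2 := derivative_eq_zero.1 h2
    rw [natDegree_neg, natDegree_pow] at e2
    rw [natDegree_pow] at e1
    have f1 : a.natDegree = 0 := by
      rcases Nat.mul_eq_zero.1 e1 with h | h
      · omega
      · exact h
    have f2 : b.natDegree = 0 := by
      rcases Nat.mul_eq_zero.1 e2 with h | h
      · omega
      · exact h
    rw [f1, f2] at hR
    simp at hR

end Pool.Agent.Lib.P62a0c3
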