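import Pool.Agent.Lib.P62a0c3.Scale

/-!
# Transport to abstract rational function fields, and counting preperiodic points
-/

namespace Pool.Agent.Lib.P62a0c3

open Polynomial

section transport

theorem map_toP1 {K L : Type*} [Field K] [Field L] (φ : K →+* L) (p q : K) :
    OnePoint.map φ (toP1 p q) = toP1 (φ p) (φ q) := by
  unfold toP1
  by_cases hq : q = 0
  · rw [if_pos hq, if_pos (by rw [hq, map_zero]), OnePoint.map_infty]
  · rw [if_neg hq, if_neg (fun h => hq ((map_eq_zero φ).1 h)), OnePoint.map_some, map_div₀]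

theorem map_bic {K L : Type*} [Field K] [Field L] (φ : K →+* L) (α β γ δ : K) (d : ℕ)
    (p : OnePoint K) :
    OnePoint.map φ (bic α β γ δ d p) = bic (φ α) (φ β) (φ γ) (φ δ) d (OnePoint.map φ p) := by
  induction p using OnePoint.rec with
  | infty => rw [OnePoint.map_infty, bic_infty, bic_infty, map_toP1]
  | coe z => rw [OnePoint.map_some, bic_some, bic_some, map_toP1]; simp

theorem map_injective {K L : Type*} [Field K] [Field L] (φ : K →+* L) :
    Function.Injective (OnePoint.map φ) := by
  intro p q h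
  induction p using OnePoint.rec with
  | infty =>
    induction q using OnePoint.rec with
    | infty => rfl
    | coe w =>
      rw [OnePoint.map_infty, OnePoint.map_some] at h
      exact absurd h.symm (OnePoint.coe_ne_infty _)
  | coe z =>
    induction q using OnePoint.rec with
    | infty =>
      rw [OnePoint.map_infty, OnePoint.map_some] at h
      exact absurd h (OnePoint.coe_ne_infty _)
    | coe w =>
      rw [OnePoint.map_some, OnePoint.map_some] at h
      rw [φ.injective (OnePoint.coe_injective h)]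

/-- `finite_invariant` for a field isomorphic to `F(t)`. -/
theorem finite_invariant' {F : Type*} [Field F] [IsAlgClosed F] [CharZero F] {K : Type*} [Field K]
    [Algebra F K] (e : K ≃ₐ[F] RatFunc F) {d : ℕ} (hd : 49 ≤ d) {α β γ δ : K}
    (hdet : α * δ - β * γ ≠ 0) (P : Finset (OnePoint K))
    (hP : ∀ p ∈ P, bic α β γ δ d p ∈ P) (hcard : 1000 * d ≤ P.card) :
    ∃ (s l : K) (α0 β0 γ0 δ0 : F), s ≠ 0 ∧ l ≠ 0 ∧
      α * s ^ d = l * algebraMap F K α0 ∧ β = l * algebraMap F K β0 ∧
      γ * s ^ (d + 1) = l * algebraMap F K γ0 ∧ δ * s = l * algebraMap F K δ0 := by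
  classical
  set φ : K →+* RatFunc F := (e : K →+* RatFunc F) with hφ
  have hφe : ∀ x, φ x = e x := fun _ => rfl
  have hdet' : φ α * φ δ - φ β * φ γ ≠ 0 := by
    rw [← map_mul, ← map_mul, ← map_sub, Ne, map_eq_zero]
    exact hdet
  obtain ⟨s, l, α0, β0, γ0, δ0, hs, hl, f1, f2, f3, f4⟩ :=
    finite_invariant (F := F) hd hdet' (P.image (OnePoint.map φ)) (by
      intro p hp
      obtain ⟨q, hq, rfl⟩ := Finset.mem_image.1 hp
      rw [← map_bic]
      exact Finset.mem_image_of_mem _ (hP q hq))
      (by rw [Finset.card_image_of_injective _ (map_injective φ)]; exact hcard)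
  refine ⟨e.symm s, e.symm l, α0, β0, γ0, δ0, ?_, ?_, ?_, ?_, ?_, ?_⟩
  · rw [Ne, map_eq_zero]; exact hs
  · rw [Ne, map_eq_zero]; exact hl
  · apply e.injective
    rw [map_mul, map_mul, map_pow, AlgEquiv.apply_symm_apply, AlgEquiv.apply_symm_apply,
      AlgEquiv.commutes, ← hφe]
    exact f1
  · apply e.injective
    rw [map_mul, AlgEquiv.apply_symm_apply, AlgEquiv.commutes, ← hφe]
    exact f2
  · apply e.injective
    rw [map_mul, map_mul, map_pow, AlgEquiv.apply_symm_apply, AlgEquiv.apply_symm_apply,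
      AlgEquiv.commutes, ← hφe]
    exact f3
  · apply e.injective
    rw [map_mul, map_mul, AlgEquiv.apply_symm_apply, AlgEquiv.apply_symm_apply,
      AlgEquiv.commutes, ← hφe]
    exact f4

end transport

section iterates

variable {L : Type*} [Field L]

theorem toP1_eq_imp {p q p' q' : L} (h : toP1 p q = toP1 p' q') : p * q' = p' * q := by
  unfold toP1 at h
  by_cases hq : q = 0
  · by_cases hq' : q' = 0
    · rw [hq, hq']; ring
    · rw [if_pos hq, if_neg hq'] at h
      exact absurd h.symm (OnePoint.coe_ne_infty _)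
  · by_cases hq' : q' = 0
    · rw [if_neg hq, if_pos hq'] at h
      exact absurd h (OnePoint.coe_ne_infty _)
    · rw [if_neg hq, if_neg hq'] at h
      exact (div_eq_div_iff hq hq').1 (OnePoint.coe_injective h)

theorem bic_toP1 (α β γ δ : L) {d : ℕ} (hd : d ≠ 0) {u v : L} (h : u ≠ 0 ∨ v ≠ 0) :
    bic α β γ δ d (toP1 u v) = toP1 (α * u ^ d + β * v ^ d) (γ * u ^ d + δ * v ^ d) := by
  by_cases hv : v = 0
  · have hu : u ≠ 0 := by
      rcases h with h | h
      · exact h
      · exact absurd hv h
    have : toP1 u v = OnePoint.infty := by rw [toP1, if_pos hv]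
    rw [this, bic_infty, hv, zero_pow hd, mul_zero, mul_zero, add_zero, add_zero,
      ← toP1_mul (u ^ d) α γ (pow_ne_zero d hu)]
    congr 1 <;> ring
  · have : toP1 u v = ((u / v : L) : OnePoint L) := by rw [toP1, if_neg hv]
    rw [this, bic_some, ← toP1_mul (v ^ d) _ _ (pow_ne_zero d hv), div_pow]
    have hvd := pow_ne_zero d hv
    congr 1 <;> field_simp

/-- The pair of polynomials describing the iterates. -/
noncomputable def itp (α β γ δ : L) (d : ℕ) : ℕ → L[X] × L[X]
  | 0 => (X, 1)
  | n + 1 => (C α * (itp α β γ δ d n).1 ^ d + C β * (itp α β γ δ d n).2 ^ d,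
      C γ * (itp α β γ δ d n).1 ^ d + C δ * (itp α β γ δ d n).2 ^ d)

theorem natDegree_itp (α β γ δ : L) (d : ℕ) (n : ℕ) :
    (itp α β γ δ d n).1.natDegree ≤ d ^ n ∧ (itp α β γ δ d n).2.natDegree ≤ d ^ n := by
  induction n with
  | zero => simp [itp]
  | succ n ih =>
    have key : ∀ (a b : L), (C a * (itp α β γ δ d n).1 ^ d +
        C b * (itp α β γ δ d n).2 ^ d).natDegree ≤ d ^ (n + 1) := by
      intro a b
      refine (natDegree_add_le _ _).trans (max_le ?_ ?_)
      · refine (natDegree_C_mul_le _ _).trans ?_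
        refine natDegree_pow_le.trans ?_
        rw [pow_succ, mul_comm]
        exact Nat.mul_le_mul_right d ih.1
      · refine (natDegree_C_mul_le _ _).trans ?_
        refine natDegree_pow_le.trans ?_
        rw [pow_succ, mul_comm]
        exact Nat.mul_le_mul_right d ih.2
    exact ⟨key α β, key γ δ⟩

theorem iter_some {α β γ δ : L} (hdet : α * δ - β * γ ≠ 0) {d : ℕ} (hd : d ≠ 0) (n : ℕ) (z : L) :
    (bic α β γ δ d)^[n] (z : OnePoint L) =
      toP1 (eval z (itp α β γ δ d n).1) (eval z (itp α β γ δ d n).2) ∧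
    (eval z (itp α β γ δ d n).1 ≠ 0 ∨ eval z (itp α β γ δ d n).2 ≠ 0) := by
  induction n with
  | zero =>
    constructor
    · rw [Function.iterate_zero, id, itp, eval_X, eval_one, toP1, if_neg one_ne_zero, div_one]
    · right; rw [itp, eval_one]; exact one_ne_zero
  | succ n ih =>
    set u := eval z (itp α β γ δ d n).1 with hu
    set v := eval z (itp α β γ δ d n).2 with hv
    have e1 : eval z (itp α β γ δ d (n + 1)).1 = α * u ^ d + β * v ^ d := by
      rw [itp]; simp [hu, hv]
    have e2 : eval z (itp α β γ δ d (n + 1)).2 = γ * u ^ d + δ * v ^ d := by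
      rw [itp]; simp [hu, hv]
    constructor
    · rw [Function.iterate_succ_apply', ih.1, bic_toP1 α β γ δ hd ih.2, e1, e2]
    · rw [e1, e2]
      by_contra hcon
      push Not at hcon
      obtain ⟨h1, h2⟩ := hcon
      have f1 : (α * δ - β * γ) * u ^ d = 0 := by linear_combination δ * h1 - β * h2
      have f2 : (α * δ - β * γ) * v ^ d = 0 := by linear_combination α * h2 - γ * h1
      have g1 : u = 0 := pow_eq_zero_iff hd |>.1 ((mul_eq_zero.1 f1).resolve_left hdet)
      have g2 : v = 0 := pow_eq_zero_iff hd |>.1 ((mul_eq_zero.1 f2).resolve_left hdet)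
      rcases ih.2 with h | h
      · exact h g1
      · exact h g2

theorem pow_eq_of_bic_eq {α β γ δ : L} (hdet : α * δ - β * γ ≠ 0) {d : ℕ} {z w : L}
    (h : bic α β γ δ d (z : OnePoint L) = bic α β γ δ d (w : OnePoint L)) : z ^ d = w ^ d := by
  rw [bic_some, bic_some] at h
  have h1 := toP1_eq_imp h
  have h2 : (α * δ - β * γ) * (z ^ d - w ^ d) = 0 := by linear_combination h1
  exact sub_eq_zero.1 ((mul_eq_zero.1 h2).resolve_left hdet)

/-- Preimages of finite sets. -/
theorem pre_card {α β γ δ : L} (hdet : α * δ - β * γ ≠ 0) {d : ℕ} (hd : d ≠ 0)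
    (S : Finset (OnePoint L)) : ∃ T : Finset (OnePoint L),
      (∀ x, bic α β γ δ d x ∈ S → x ∈ T) ∧ T.card ≤ S.card * (d + 1) := by
  classical
  have hfib : ∀ y : OnePoint L, ∃ T : Finset (OnePoint L),
      (∀ x, bic α β γ δ d x = y → x ∈ T) ∧ T.card ≤ d + 1 := by
    intro y
    by_cases hy : ∃ z : L, bic α β γ δ d (z : OnePoint L) = y
    · obtain ⟨z, hz⟩ := hy
      refine ⟨insert OnePoint.infty ((nthRoots d (z ^ d)).toFinset.image
        (fun w : L => (w : OnePoint L))), ?_, ?_⟩
      · intro x hx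
        induction x using OnePoint.rec with
        | infty => exact Finset.mem_insert_self _ _
        | coe w =>
          apply Finset.mem_insert_of_mem
          refine Finset.mem_image.2 ⟨w, ?_, rfl⟩
          rw [Multiset.mem_toFinset, mem_nthRoots (Nat.pos_of_ne_zero hd)]
          exact pow_eq_of_bic_eq hdet (hx.trans hz.symm)
      · refine (Finset.card_insert_le _ _).trans (Nat.add_le_add_right ?_ 1)
        exact Finset.card_image_le.trans ((Multiset.toFinset_card_le _).trans (card_nthRoots d _))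
    · push Not at hy
      refine ⟨{OnePoint.infty}, ?_, by simp⟩
      intro x hx
      induction x using OnePoint.rec with
      | infty => exact Finset.mem_singleton_self _
      | coe w => exact absurd hx (hy w)
  choose T hT1 hT2 using hfib
  refine ⟨S.biUnion T, ?_, ?_⟩
  · intro x hx
    exact Finset.mem_biUnion.2 ⟨_, hx, hT1 _ x rfl⟩
  · exact Finset.card_biUnion_le_card_mul _ _ _ fun y _ => hT2 y

theorem preiter_card {α β γ δ : L} (hdet : α * δ - β * γ ≠ 0) {d : ℕ} (hd : d ≠ 0) (n : ℕ)
    (S : Finset (OnePoint L)) : ∃ T : Finset (OnePoint L),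
      (∀ x, (bic α β γ δ d)^[n] x ∈ S → x ∈ T) ∧ T.card ≤ S.card * (d + 1) ^ n := by
  induction n generalizing S with
  | zero => exact ⟨S, fun x hx => hx, by simp⟩
  | succ n ih =>
    obtain ⟨T1, h1, h2⟩ := pre_card hdet hd S
    obtain ⟨T2, h3, h4⟩ := ih T1
    refine ⟨T2, ?_, ?_⟩
    · intro x hx
      rw [Function.iterate_succ_apply'] at hx
      exact h3 x (h1 _ hx)
    · refine h4.trans ?_
      calc T1.card * (d + 1) ^ n ≤ (S.card * (d + 1)) * (d + 1) ^ n :=
            Nat.mul_le_mul_right _ h2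
        _ = S.card * (d + 1) ^ (n + 1) := by ring

/-- Periodic points. -/
theorem fix_card [IsAlgClosed L] [CharZero L] {α β γ δ : L} (hdet : α * δ - β * γ ≠ 0) {d : ℕ}
    (hd : 2 ≤ d) {n : ℕ} (hn : 1 ≤ n) : ∃ T : Finset (OnePoint L),
      (∀ x, (bic α β γ δ d)^[n] x = x → x ∈ T) ∧ T.card ≤ d ^ n + 2 := by
  classical
  have hd0 : d ≠ 0 := by omega
  set Φ : L[X] := (itp α β γ δ d n).1 - X * (itp α β γ δ d n).2 with hΦ
  have hfix : ∀ z : L, (bic α β γ δ d)^[n] (z : OnePoint L) = z → eval z Φ = 0 := by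
    intro z hz
    obtain ⟨h1, h2⟩ := iter_some hdet hd0 n z
    rw [h1] at hz
    have h3 : toP1 (eval z (itp α β γ δ d n).1) (eval z (itp α β γ δ d n).2) = toP1 z 1 := by
      rw [hz, toP1, if_neg one_ne_zero, div_one]
    have h4 := toP1_eq_imp h3
    rw [hΦ, eval_sub, eval_mul, eval_X]
    linear_combination h4
  have hne : Φ ≠ 0 := by
    intro h0
    have hall : ∀ z : L, (bic α β γ δ d)^[n] (z : OnePoint L) = z := by
      intro z
      obtain ⟨h1, h2⟩ := iter_some hdet hd0 n z
      have h3 : eval z (itp α β γ δ d n).1 = z * eval z (itp α β γ δ d n).2 := by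
        have := congrArg (eval z) h0
        rw [hΦ, eval_sub, eval_mul, eval_X, eval_zero] at this
        exact sub_eq_zero.1 this
      have h4 : eval z (itp α β γ δ d n).2 ≠ 0 := by
        intro h5
        rw [h5, mul_zero] at h3
        rcases h2 with h | h
        · exact h h3
        · exact h h5
      rw [h1, h3, toP1, if_neg h4, mul_div_cancel_right₀ _ h4]
    -- a nontrivial root of unity
    haveI : NeZero (d : L) := ⟨Nat.cast_ne_zero.2 hd0⟩
    obtain ⟨ζ, hζ⟩ := HasEnoughRootsOfUnity.exists_primitiveRoot L d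
    have hζ1 : ζ ≠ 1 := hζ.ne_one (by omega)
    have h5 : bic α β γ δ d (ζ : OnePoint L) = bic α β γ δ d ((1 : L) : OnePoint L) := by
      rw [bic_some, bic_some, hζ.pow_eq_one, one_pow]
    obtain ⟨m, rfl⟩ : ∃ m, n = m + 1 := ⟨n - 1, by omega⟩
    have h6 := hall ζ
    have h7 := hall 1
    rw [Function.iterate_succ_apply, h5, ← Function.iterate_succ_apply, h7] at h6
    exact hζ1 (OnePoint.coe_injective h6).symm
  refine ⟨insert OnePoint.infty (Φ.roots.toFinset.image (fun w : L => (w : OnePoint L))), ?_, ?_⟩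
  · intro x hx
    induction x using OnePoint.rec with
    | infty => exact Finset.mem_insert_self _ _
    | coe w =>
      apply Finset.mem_insert_of_mem
      refine Finset.mem_image.2 ⟨w, ?_, rfl⟩
      rw [Multiset.mem_toFinset, mem_roots hne]
      exact hfix w hx
  · refine (Finset.card_insert_le _ _).trans ?_
    have h1 : Φ.natDegree ≤ d ^ n + 1 := by
      obtain ⟨h1, h2⟩ := natDegree_itp α β γ δ d n
      rw [hΦ]
      refine (natDegree_sub_le _ _).trans (max_le (h1.trans (Nat.le_succ _)) ?_)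
      refine natDegree_mul_le.trans ?_
      rw [natDegree_X]
      omega
    have h2 : (Φ.roots.toFinset.image (fun w : L => (w : OnePoint L))).card ≤ d ^ n + 1 :=
      Finset.card_image_le.trans ((Multiset.toFinset_card_le _).trans ((card_roots' _).trans h1))
    omega

/-- Points whose orbit closes up within `B` steps. -/
theorem closing_card [IsAlgClosed L] [CharZero L] {α β γ δ : L} (hdet : α * δ - β * γ ≠ 0) {d : ℕ}
    (hd : 2 ≤ d) (B : ℕ) : ∃ T : Finset (OnePoint L),
      (∀ x, (∃ i j, i < j ∧ j < B ∧ (bic α β γ δ d)^[i] x = (bic α β γ δ d)^[j] x) → x ∈ T) ∧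
      T.card ≤ B * (B * ((d ^ B + 2) * (d + 1) ^ B)) := by
  classical
  have hd0 : d ≠ 0 := by omega
  have hS : ∀ p : ℕ, ∃ S : Finset (OnePoint L), (1 ≤ p → ∀ x, (bic α β γ δ d)^[p] x = x → x ∈ S) ∧
      S.card ≤ d ^ p + 2 := by
    intro p
    by_cases hp : 1 ≤ p
    · obtain ⟨S, h1, h2⟩ := fix_card hdet hd hp
      exact ⟨S, fun _ => h1, h2⟩
    · exact ⟨∅, fun h => absurd h hp, by simp⟩
  choose S hS1 hS2 using hS
  have hT : ∀ i p : ℕ, ∃ T : Finset (OnePoint L),
      (∀ x, (bic α β γ δ d)^[i] x ∈ S p → x ∈ T) ∧ T.card ≤ (S p).card * (d + 1) ^ i :=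
    fun i p => preiter_card hdet hd0 i (S p)
  choose T hT1 hT2 using hT
  refine ⟨(Finset.range B).biUnion fun i => (Finset.range B).biUnion fun p => T i p, ?_, ?_⟩
  · rintro x ⟨i, j, hij, hjB, hx⟩
    refine Finset.mem_biUnion.2 ⟨i, Finset.mem_range.2 (by omega), ?_⟩
    refine Finset.mem_biUnion.2 ⟨j - i, Finset.mem_range.2 (by omega), ?_⟩
    apply hT1
    apply hS1 _ (by omega)
    rw [← Function.iterate_add_apply, Nat.sub_add_cancel hij.le]
    exact hx.symm
  · have h1 : ∀ i ∈ Finset.range B, ∀ p ∈ Finset.range B,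
        (T i p).card ≤ (d ^ B + 2) * (d + 1) ^ B := by
      intro i hi p hp
      refine (hT2 i p).trans (Nat.mul_le_mul ((hS2 p).trans ?_) ?_)
      · exact Nat.add_le_add_right (Nat.pow_le_pow_right (by omega)
          (Finset.mem_range.1 hp).le) 2
      · exact Nat.pow_le_pow_right (by omega) (Finset.mem_range.1 hi).le
    have h2 : ∀ i ∈ Finset.range B, ((Finset.range B).biUnion fun p => T i p).card ≤
        B * ((d ^ B + 2) * (d + 1) ^ B) := by
      intro i hi
      have := Finset.card_biUnion_le_card_mul (Finset.range B) (fun p => T i p) _ (h1 i hi)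
      rwa [Finset.card_range] at this
    have := Finset.card_biUnion_le_card_mul (Finset.range B)
      (fun i => (Finset.range B).biUnion fun p => T i p) _ h2
    rwa [Finset.card_range] at this

end iterates

end Pool.Agent.Lib.P62a0c3
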