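import Pool.Agent.Lib.P62a0c3.Inv

/-!
# Finite invariant sets force isotriviality
-/

namespace Pool.Agent.Lib.P62a0c3

open Polynomial

section const

variable {F K : Type*} [Field F] [Field K] [Algebra F K]

/-- A Möbius map which takes three constants to constants has constant coefficients, up to a
common factor. -/
theorem const_matrix {α β γ δ : K} (hdet : α * δ - β * γ ≠ 0) {u1 u2 u3 v1 v2 v3 : F}
    (h12 : u1 ≠ u2) (h13 : u1 ≠ u3) (h23 : u2 ≠ u3)
    (e1 : α * algebraMap F K u1 + β = algebraMap F K v1 * (γ * algebraMap F K u1 + δ))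
    (e2 : α * algebraMap F K u2 + β = algebraMap F K v2 * (γ * algebraMap F K u2 + δ))
    (e3 : α * algebraMap F K u3 + β = algebraMap F K v3 * (γ * algebraMap F K u3 + δ)) :
    ∃ (l : K) (α0 β0 γ0 δ0 : F), l ≠ 0 ∧ α = l * algebraMap F K α0 ∧ β = l * algebraMap F K β0 ∧
      γ = l * algebraMap F K γ0 ∧ δ = l * algebraMap F K δ0 := by
  have hinj := FaithfulSMul.algebraMap_injective F K
  set φ := algebraMap F K with hφ
  have hu12 : φ u1 - φ u2 ≠ 0 := by
    rw [sub_ne_zero]; exact fun h => h12 (hinj h)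
  have hv12 : v1 ≠ v2 := by
    intro hv
    rw [← hv] at e2
    have h1 : (α - φ v1 * γ) * (φ u1 - φ u2) = 0 := by linear_combination e1 - e2
    have h2 := (mul_eq_zero.1 h1).resolve_right hu12
    apply hdet
    have h3 : β = φ v1 * δ := by linear_combination e1 - φ u1 * h2
    rw [h3, sub_eq_zero.1 h2]; ring
  set g : F := (v1 * u1 - v2 * u2) * (u1 - u3) - (v1 * u1 - v3 * u3) * (u1 - u2) with hg
  set h : F := (v1 - v2) * (u1 - u3) - (v1 - v3) * (u1 - u2) with hh
  have hgh : γ * φ g + δ * φ h = 0 := by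
    rw [hg, hh]
    simp only [map_sub, map_mul]
    linear_combination (-(φ u1 - φ u3)) * (e1 - e2) + (φ u1 - φ u2) * (e1 - e3)
  have hne : g ≠ 0 ∨ h ≠ 0 := by
    by_contra hcon
    push Not at hcon
    obtain ⟨hg0, hh0⟩ := hcon
    rw [hg] at hg0
    rw [hh] at hh0
    -- `g - u₁ h`-type elimination
    have k : (v1 - v2) * ((u1 - u3) * (u2 - u3)) = 0 := by
      linear_combination hg0 - u3 * hh0
    rcases mul_eq_zero.1 k with h' | h'
    · exact hv12 (sub_eq_zero.1 h')
    · rcases mul_eq_zero.1 h' with h'' | h''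
      · exact h13 (sub_eq_zero.1 h'')
      · exact h23 (sub_eq_zero.1 h'')
  have hu12' : (φ u1 - φ u2) ≠ 0 := hu12
  -- recover `α` and `β` from `γ = l γ₀`, `δ = l δ₀`
  have rest : ∀ (l : K) (γ0 δ0 : F), l ≠ 0 → γ = l * φ γ0 → δ = l * φ δ0 →
      ∃ (l : K) (α0 β0 γ0 δ0 : F), l ≠ 0 ∧ α = l * φ α0 ∧ β = l * φ β0 ∧
      γ = l * φ γ0 ∧ δ = l * φ δ0 := by
    intro l γ0 δ0 hl hγ hδ
    set α0 : F := (γ0 * (v1 * u1 - v2 * u2) + δ0 * (v1 - v2)) / (u1 - u2) with hα0
    have hu : u1 - u2 ≠ 0 := sub_ne_zero.2 h12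
    have hα0' : α0 * (u1 - u2) = γ0 * (v1 * u1 - v2 * u2) + δ0 * (v1 - v2) := by
      rw [hα0]; field_simp
    have hφ0 := congrArg φ hα0'
    simp only [map_mul, map_sub, map_add] at hφ0
    have hα : α = l * φ α0 := by
      apply mul_right_cancel₀ hu12
      rw [hγ, hδ] at e1 e2
      linear_combination e1 - e2 - l * hφ0
    refine ⟨l, α0, v1 * (γ0 * u1 + δ0) - α0 * u1, γ0, δ0, hl, hα, ?_, hγ, hδ⟩
    simp only [map_mul, map_sub, map_add]
    rw [hγ, hδ, hα] at e1
    linear_combination e1
  by_cases hh0 : h = 0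
  · have hg0 : g ≠ 0 := by
      rcases hne with h' | h'
      · exact h'
      · exact absurd hh0 h'
    have hγ0 : γ = 0 := by
      rw [hh0, map_zero, mul_zero, add_zero] at hgh
      rcases mul_eq_zero.1 hgh with h' | h'
      · exact h'
      · exact absurd ((map_eq_zero_iff φ hinj).1 h') hg0
    have hδ0 : δ ≠ 0 := by
      intro h'
      apply hdet
      rw [h', hγ0]; ring
    exact rest δ 0 1 hδ0 (by rw [hγ0, map_zero, mul_zero]) (by rw [map_one, mul_one])
  · have hφh : φ h ≠ 0 := fun h' => hh0 ((map_eq_zero_iff φ hinj).1 h')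
    have hδ' : δ = γ * φ (-(g / h)) := by
      have hgh0 : (g / h) * h = g := div_mul_cancel₀ g hh0
      have := congrArg φ hgh0
      rw [map_mul] at this
      rw [map_neg]
      apply mul_right_cancel₀ hφh
      linear_combination hgh + γ * this
    have hγ0 : γ ≠ 0 := by
      intro h'
      apply hdet
      rw [hδ', h']; ring
    exact rest γ 1 (-(g / h)) hγ0 (by rw [map_one, mul_one]) hδ'

end const

variable {F : Type*} [Field F] [IsAlgClosed F] [CharZero F]

/-- Multiplication by `s⁻¹` on `ℙ¹`. -/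
noncomputable def sc {L : Type*} [Field L] (s : L) : OnePoint L → OnePoint L
  | OnePoint.infty => OnePoint.infty
  | OnePoint.some z => ((z / s : L) : OnePoint L)

theorem sc_infty {L : Type*} [Field L] (s : L) : sc s OnePoint.infty = OnePoint.infty := rfl
theorem sc_some {L : Type*} [Field L] (s z : L) : sc s (z : OnePoint L) = ((z / s : L) : OnePoint L) :=
  rfl

theorem sc_injective {L : Type*} [Field L] {s : L} (hs : s ≠ 0) : Function.Injective (sc s) := by
  intro p q h
  induction p using OnePoint.rec with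
  | infty =>
    induction q using OnePoint.rec with
    | infty => rfl
    | coe w => rw [sc_infty, sc_some] at h; exact absurd h.symm (OnePoint.coe_ne_infty _)
  | coe z =>
    induction q using OnePoint.rec with
    | infty => rw [sc_infty, sc_some] at h; exact absurd h (OnePoint.coe_ne_infty _)
    | coe w =>
      rw [sc_some, sc_some] at h
      have h1 : z / s = w / s := OnePoint.coe_injective h
      have h2 : z = w := by
        rw [div_eq_div_iff hs hs] at h1
        exact mul_right_cancel₀ hs h1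
      rw [h2]

theorem sc_toP1 {L : Type*} [Field L] (s : L) (hs : s ≠ 0) (p q : L) :
    sc s (toP1 p q) = toP1 p (q * s) := by
  unfold toP1
  by_cases hq : q = 0
  · rw [if_pos hq, if_pos (by rw [hq, zero_mul]), sc_infty]
  · rw [if_neg hq, if_neg (mul_ne_zero hq hs), sc_some, div_div]

/-- Scaling conjugates `f` to a map of the same form. -/
theorem sc_bic {L : Type*} [Field L] {s : L} (hs : s ≠ 0) (α β γ δ : L) (d : ℕ) (p : OnePoint L) :
    sc s (bic α β γ δ d p) = bic (α * s ^ d) β (γ * s ^ (d + 1)) (δ * s) d (sc s p) := by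
  induction p using OnePoint.rec with
  | infty =>
    rw [bic_infty, sc_infty, bic_infty, sc_toP1 s hs, ← toP1_mul (s ^ d) _ _ (pow_ne_zero d hs)]
    congr 1 <;> ring
  | coe z =>
    rw [bic_some, sc_some, bic_some, sc_toP1 s hs, div_pow]
    have hsd := pow_ne_zero d hs
    congr 1
    · field_simp
    · field_simp
      ring

/-- A finite invariant set with at least `1000 d` points, `49 ≤ d`, forces the map to be
conjugate, by a scaling, to a map with constant coefficients. -/
theorem finite_invariant {d : ℕ} (hd : 49 ≤ d) {α β γ δ : RatFunc F}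
    (hdet : α * δ - β * γ ≠ 0) (P : Finset (OnePoint (RatFunc F)))
    (hP : ∀ p ∈ P, bic α β γ δ d p ∈ P) (hcard : 1000 * d ≤ P.card) :
    ∃ (s l : RatFunc F) (α0 β0 γ0 δ0 : F), s ≠ 0 ∧ l ≠ 0 ∧
      α * s ^ d = l * algebraMap F (RatFunc F) α0 ∧ β = l * algebraMap F (RatFunc F) β0 ∧
      γ * s ^ (d + 1) = l * algebraMap F (RatFunc F) γ0 ∧
      δ * s = l * algebraMap F (RatFunc F) δ0 := by
  classical
  have hd0 : d ≠ 0 := by omega
  -- the finite nonzero points
  set Q : Finset (RatFunc F) := (P.preimage (fun z : RatFunc F => (z : OnePoint (RatFunc F)))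
    (OnePoint.coe_injective.injOn)).erase 0 with hQ
  have hmemQ : ∀ z, z ∈ Q ↔ z ≠ 0 ∧ (z : OnePoint (RatFunc F)) ∈ P := by
    intro z
    rw [hQ, Finset.mem_erase, Finset.mem_preimage]
  have hQcard : P.card ≤ Q.card + 2 := by
    have h1 : P ⊆ (Q.image fun z : RatFunc F => (z : OnePoint (RatFunc F))) ∪
        {OnePoint.infty, ((0 : RatFunc F) : OnePoint (RatFunc F))} := by
      intro p hp
      rw [Finset.mem_union]
      induction p using OnePoint.rec with
      | infty => right; simp
      | coe z =>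
        by_cases hz : z = 0
        · right; rw [hz]; simp
        · left; exact Finset.mem_image.2 ⟨z, (hmemQ z).2 ⟨hz, hp⟩, rfl⟩
    refine (Finset.card_le_card h1).trans ((Finset.card_union_le _ _).trans ?_)
    exact Nat.add_le_add Finset.card_image_le Finset.card_le_two
  have hQne : Q.Nonempty := by
    rw [← Finset.card_pos]; omega
  obtain ⟨⟨x0, y0⟩, hxy, hmax⟩ := Finset.exists_max_image (Q ×ˢ Q)
    (fun q : RatFunc F × RatFunc F => ht (q.2 / q.1)) (hQne.product hQne)
  rw [Finset.mem_product] at hxy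
  obtain ⟨hx0, hx0P⟩ := (hmemQ x0).1 hxy.1
  obtain ⟨hy0, hy0P⟩ := (hmemQ y0).1 hxy.2
  set s := x0 with hs
  have hs0 : s ≠ 0 := hx0
  have hdet' : (α * s ^ d) * (δ * s) - β * (γ * s ^ (d + 1)) ≠ 0 := by
    have : (α * s ^ d) * (δ * s) - β * (γ * s ^ (d + 1)) = s ^ (d + 1) * (α * δ - β * γ) := by
      ring
    rw [this]
    exact mul_ne_zero (pow_ne_zero _ hs0) hdet
  set P' := P.image (sc s) with hP'def
  have hP'card : P'.card = P.card := Finset.card_image_of_injective _ (sc_injective hs0)
  have hP' : ∀ p ∈ P', bic (α * s ^ d) β (γ * s ^ (d + 1)) (δ * s) d p ∈ P' := by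
    intro p hp
    obtain ⟨q, hq, rfl⟩ := Finset.mem_image.1 hp
    rw [← sc_bic hs0]
    exact Finset.mem_image_of_mem _ (hP q hq)
  have h1P' : ((1 : RatFunc F) : OnePoint (RatFunc F)) ∈ P' := by
    refine Finset.mem_image.2 ⟨_, hx0P, ?_⟩
    rw [sc_some, div_self hs0]
  have hle : ∀ z : RatFunc F, (z : OnePoint (RatFunc F)) ∈ P' → z ≠ 0 → ht z ≤ ht (y0 / s) := by
    intro z hz hz0
    obtain ⟨q, hq, hqz⟩ := Finset.mem_image.1 hz
    induction q using OnePoint.rec with
    | infty => rw [sc_infty] at hqz; exact absurd hqz.symm (OnePoint.coe_ne_infty _)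
    | coe w =>
      rw [sc_some] at hqz
      have hw : w / s = z := OnePoint.coe_injective hqz
      have hw0 : w ≠ 0 := by
        rintro rfl
        rw [zero_div] at hw
        exact hz0 hw.symm
      have := hmax (s, w) (Finset.mem_product.2 ⟨hxy.1, (hmemQ w).2 ⟨hw0, hq⟩⟩)
      dsimp only at this
      rwa [hw] at this
  have hR0 : ht (y0 / s) = 0 := by
    by_contra hR
    have h2 := normalised hd (Nat.one_le_iff_ne_zero.2 hR) hdet' P' hP' h1P' hle (y0 / s)
      (Finset.mem_image.2 ⟨_, hy0P, rfl⟩) (div_ne_zero hy0 hs0) rfl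
    omega
  -- all nonzero finite points of `P'` are constants
  have hconst : ∀ z : RatFunc F, (z : OnePoint (RatFunc F)) ∈ P' →
      ∃ c : F, z = algebraMap F (RatFunc F) c := by
    intro z hz
    by_cases hz0 : z = 0
    · exact ⟨0, by rw [hz0, map_zero]⟩
    · have h3 : ht z = 0 := Nat.le_zero.1 (hR0 ▸ hle z hz hz0)
      have h4 : z.num.natDegree = 0 := Nat.le_zero.1 (h3 ▸ le_max_left _ _)
      have h5 : z.denom.natDegree = 0 := Nat.le_zero.1 (h3 ▸ le_max_right _ _)
      obtain ⟨n, hn⟩ : ∃ n : F, z.num = C n := ⟨_, eq_C_of_natDegree_eq_zero h4⟩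
      obtain ⟨m, hm⟩ : ∃ m : F, z.denom = C m := ⟨_, eq_C_of_natDegree_eq_zero h5⟩
      refine ⟨n / m, ?_⟩
      rw [← RatFunc.num_div_denom z, hn, hm, map_div₀]
      rfl
  set φ := algebraMap F (RatFunc F) with hφ
  have hinj : Function.Injective φ := FaithfulSMul.algebraMap_injective _ _
  have hinj2 : Function.Injective (fun c : F => ((φ c : RatFunc F) : OnePoint (RatFunc F))) :=
    OnePoint.coe_injective.comp hinj
  set C0 : Finset F := (P'.preimage (fun c : F => ((φ c : RatFunc F) : OnePoint (RatFunc F)))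
    hinj2.injOn) with hC0
  have hC0mem : ∀ c, c ∈ C0 ↔ ((φ c : RatFunc F) : OnePoint (RatFunc F)) ∈ P' := by
    intro c; rw [hC0, Finset.mem_preimage]
  have hC0card : P'.card ≤ C0.card + 1 := by
    have h1 : P' ⊆ (C0.image fun c : F => ((φ c : RatFunc F) : OnePoint (RatFunc F))) ∪
        {OnePoint.infty} := by
      intro p hp
      rw [Finset.mem_union]
      induction p using OnePoint.rec with
      | infty => right; simp
      | coe z =>
        left
        obtain ⟨c, hc⟩ := hconst z hp
        exact Finset.mem_image.2 ⟨c, (hC0mem c).2 (by rw [← hc]; exact hp), by rw [hc]⟩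
    refine (Finset.card_le_card h1).trans ((Finset.card_union_le _ _).trans ?_)
    exact Nat.add_le_add Finset.card_image_le (by simp)
  set U := C0.image fun c : F => c ^ d with hU
  have hUcard : C0.card ≤ d * U.card := by
    apply Finset.card_le_mul_card_image
    intro a _
    calc _ ≤ (nthRoots d a).toFinset.card := by
          apply Finset.card_le_card
          intro c hc
          rw [Multiset.mem_toFinset, mem_nthRoots (by omega)]
          exact (Finset.mem_filter.1 hc).2
      _ ≤ (nthRoots d a).card := Multiset.toFinset_card_le _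
      _ ≤ d := card_nthRoots d a
  set α' := α * s ^ d with hα'
  set γ' := γ * s ^ (d + 1) with hγ'
  set δ' := δ * s with hδ'
  set U' := U.filter fun u => γ' * φ u + δ' ≠ 0 with hU'
  have hU'card : U.card ≤ U'.card + 1 := by
    have h1 : (U.filter fun u => ¬ (γ' * φ u + δ' ≠ 0)).card ≤ 1 := by
      rw [Finset.card_le_one]
      intro u hu u' hu'
      have e1 : γ' * φ u + δ' = 0 := by
        have := (Finset.mem_filter.1 hu).2
        push Not at this
        exact this
      have e2 : γ' * φ u' + δ' = 0 := by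
        have := (Finset.mem_filter.1 hu').2
        push Not at this
        exact this
      have e3 : γ' * (φ u - φ u') = 0 := by linear_combination e1 - e2
      rcases mul_eq_zero.1 e3 with h | h
      · exfalso
        rw [h, zero_mul, zero_add] at e1
        apply hdet'
        rw [h, e1]; ring
      · exact hinj (sub_eq_zero.1 h)
    have h2 := Finset.card_filter_add_card_filter_not (s := U) (fun u => γ' * φ u + δ' ≠ 0)
    rw [← h2]
    exact Nat.add_le_add_left h1 _
  have hbig : 2 < U'.card := by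
    by_contra hcon
    have h1 : U.card ≤ 3 := by omega
    have h2 : d * U.card ≤ d * 3 := Nat.mul_le_mul_left d h1
    omega
  obtain ⟨u1, hu1, u2, hu2, u3, hu3, h12, h13, h23⟩ := Finset.two_lt_card.1 hbig
  have hval : ∀ u ∈ U', ∃ v : F, α' * φ u + β = φ v * (γ' * φ u + δ') := by
    intro u hu
    obtain ⟨huU, hne⟩ := Finset.mem_filter.1 hu
    obtain ⟨c, hc, rfl⟩ := Finset.mem_image.1 huU
    have h1 := hP' _ ((hC0mem c).1 hc)
    rw [bic_some, ← map_pow] at h1
    unfold toP1 at h1
    rw [if_neg hne] at h1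
    obtain ⟨v, hv⟩ := hconst _ h1
    refine ⟨v, ?_⟩
    rw [← hv]
    exact (div_mul_cancel₀ _ hne).symm
  obtain ⟨v1, e1⟩ := hval u1 hu1
  obtain ⟨v2, e2⟩ := hval u2 hu2
  obtain ⟨v3, e3⟩ := hval u3 hu3
  obtain ⟨l, α0, β0, γ0, δ0, hl, f1, f2, f3, f4⟩ := const_matrix hdet' h12 h13 h23 e1 e2 e3
  exact ⟨s, l, α0, β0, γ0, δ0, hs0, hl, f1, f2, f3, f4⟩

end Pool.Agent.Lib.P62a0c3
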